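import Mathlib
import Pool.Agent.W2helper42.HL.Stm
import Pool.Agent.N769.BK.DIM

/-!
# Project HL: algebraic geometry over countable fields (A_MONO, A_KRULL, A_GEN, A_NEW, A_DEF)
-/

set_option autoImplicit false
set_option linter.all false

namespace Pool.Agent.W2helper55.HL

open MvPolynomial Cardinal
open Pool.Agent.W2helper42.HL

/-- many algebraically independent numbers -/
lemma exists_ai (L : Type) [Field L] [Algebra L ℂ] (hL : #L ≤ ℵ₀) (κ : Type) [Finite κ] :
    ∃ t : κ → ℂ, AlgebraicIndependent L t := by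
  obtain ⟨ι', x, hx⟩ := exists_isTranscendenceBasis' L (A := ℂ)
  have h := IsAlgClosed.cardinal_eq_cardinal_transcendence_basis_of_aleph0_lt' x hx hL
    (by rw [Cardinal.mk_complex]; exact Cardinal.aleph0_lt_continuum)
  have hinf : Infinite ι' := by
    rw [Cardinal.infinite_iff, ← h, Cardinal.mk_complex]
    exact Cardinal.aleph0_le_continuum
  cases nonempty_fintype κ
  let e : κ → ι' := fun i => Infinite.natEmbedding ι' ((Fintype.equivFin κ) i : ℕ)
  have he : Function.Injective e := by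
    intro i j hij
    exact (Fintype.equivFin κ).injective (Fin.ext ((Infinite.natEmbedding ι').injective hij))
  exact ⟨x ∘ e, hx.1.comp e he⟩

section gen
variable {ι : Type} [Finite ι] {k : Type} [Field k] [Algebra k ℂ]

/-- the ideal of a point -/
noncomputable def gI (k : Type) [Field k] [Algebra k ℂ] (x : ι → ℂ) : Ideal (MvPolynomial ι k) :=
  RingHom.ker (aeval x : MvPolynomial ι k →ₐ[k] ℂ)

/-- the transcendence degree -/
noncomputable def gtd (k : Type) [Field k] [Algebra k ℂ] (x : ι → ℂ) : ℕ :=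
  Cardinal.toNat (Algebra.trdeg k (Algebra.adjoin k (Set.range x)))

/-- a homomorphism to `ℂ` from a domain which is algebraic over a subring with a given embedding -/
lemma exists_lift {k S A : Type} [Field k] [CommRing S] [IsDomain S] [Algebra k S] [CommRing A]
    [Algebra k A] [Algebra A S] [IsScalarTower k A S] [Algebra.IsAlgebraic A S]
    [Algebra k ℂ] (hAS : Function.Injective (algebraMap A S)) (g : A →ₐ[k] ℂ)
    (hg : Function.Injective g) :
    ∃ ψ : S →ₐ[k] ℂ, Function.Injective ψ := by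
  haveI : FaithfulSMul A S := (faithfulSMul_iff_algebraMap_injective _ _).2 hAS
  letI : Algebra A ℂ := g.toRingHom.toAlgebra
  haveI : FaithfulSMul A ℂ := (faithfulSMul_iff_algebraMap_injective _ _).2 hg
  haveI : IsDomain A := (FaithfulSMul.algebraMap_injective A S).isDomain _
  let φ : S →ₐ[A] ℂ := IsAlgClosed.lift
  have hφ : ∀ s, φ s = 0 → s = 0 := by
    intro s hs
    by_contra h0
    obtain ⟨p, hp0, hp⟩ := (Algebra.IsAlgebraic.isAlgebraic (R := A)
      s).exists_nonzero_coeff_and_aeval_eq_zero (mem_nonZeroDivisors_of_ne_zero h0)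
    have h1 := congrArg φ hp
    rw [map_zero, ← Polynomial.aeval_algHom_apply, hs, ← Polynomial.coeff_zero_eq_aeval_zero'] at h1
    apply hp0
    apply hg
    rw [map_zero]
    exact h1
  let ψ : S →ₐ[k] ℂ :=
    { φ.toRingHom with
      commutes' := fun c => by
        show φ (algebraMap k S c) = _
        rw [IsScalarTower.algebraMap_apply k A S, φ.commutes]
        exact g.commutes c }
  refine ⟨ψ, (injective_iff_map_eq_zero ψ).2 fun s hs => hφ s hs⟩

/-- a point with given ideal over a countable field -/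
theorem gexists_pt [Countable k] (Q : Ideal (MvPolynomial ι k)) [hQ : Q.IsPrime] :
    ∃ b : ι → ℂ, gI k b = Q := by
  obtain ⟨κ, x, hx⟩ := exists_isTranscendenceBasis' k (A := MvPolynomial ι k ⧸ Q)
  have hfin : Finite κ := by
    have h1 := hx.cardinalMk_eq_trdeg
    have h2 : Algebra.trdeg k (MvPolynomial ι k ⧸ Q) < ℵ₀ := trdeg_lt_aleph0_of_finiteType
    rw [← h1] at h2
    exact Cardinal.lt_aleph0_iff_finite.1 h2
  obtain ⟨t, ht⟩ := exists_ai k Cardinal.mk_le_aleph0 κ
  let g : Algebra.adjoin k (Set.range x) →ₐ[k] ℂ :=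
    (aeval t : MvPolynomial κ k →ₐ[k] ℂ).comp hx.1.aevalEquiv.symm.toAlgHom
  have hg : Function.Injective g := by
    have h1 : Function.Injective (aeval t : MvPolynomial κ k →ₐ[k] ℂ) := ht
    exact h1.comp hx.1.aevalEquiv.symm.injective
  haveI : Algebra.IsAlgebraic (Algebra.adjoin k (Set.range x)) (MvPolynomial ι k ⧸ Q) :=
    hx.isAlgebraic
  obtain ⟨ψ, hψ⟩ := exists_lift (S := MvPolynomial ι k ⧸ Q) Subtype.val_injective g hg
  refine ⟨fun i => ψ (Ideal.Quotient.mk Q (X i)), ?_⟩
  have h2 : (aeval fun i => ψ (Ideal.Quotient.mk Q (X i))) = ψ.comp (Ideal.Quotient.mkₐ k Q) := by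
    apply MvPolynomial.algHom_ext
    intro i
    rw [aeval_X]
    rfl
  unfold gI
  rw [h2]
  ext f
  rw [RingHom.mem_ker]
  constructor
  · intro h
    have h3 : ψ (Ideal.Quotient.mk Q f) = 0 := h
    exact Ideal.Quotient.eq_zero_iff_mem.1 ((map_eq_zero_iff ψ hψ).1 h3)
  · intro h
    show ψ (Ideal.Quotient.mk Q f) = 0
    rw [Ideal.Quotient.eq_zero_iff_mem.2 h, map_zero]

instance gI_prime (x : ι → ℂ) : (gI k x).IsPrime := RingHom.ker_isPrime _

lemma gtd_eq (x : ι → ℂ) : Algebra.trdeg k (Algebra.adjoin k (Set.range x)) =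
    Algebra.trdeg k (MvPolynomial ι k ⧸ gI k x) := by
  rw [Algebra.adjoin_range_eq_range_aeval]
  have h : ∀ a ∈ gI k x, (aeval x : MvPolynomial ι k →ₐ[k] ℂ).rangeRestrict a = 0 := by
    intro a ha
    apply Subtype.ext
    exact ha
  let e : (MvPolynomial ι k ⧸ gI k x) →ₐ[k] (aeval x : MvPolynomial ι k →ₐ[k] ℂ).range :=
    Ideal.Quotient.liftₐ (gI k x) (aeval x : MvPolynomial ι k →ₐ[k] ℂ).rangeRestrict h
  have he : ∀ a, e (Ideal.Quotient.mk _ a) =
    (aeval x : MvPolynomial ι k →ₐ[k] ℂ).rangeRestrict a := fun a => rfl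
  apply le_antisymm
  · apply _root_.trdeg_le_of_surjective e
    intro y
    obtain ⟨a, ha⟩ := (aeval x : MvPolynomial ι k →ₐ[k] ℂ).rangeRestrict_surjective y
    exact ⟨Ideal.Quotient.mk _ a, by rw [he, ha]⟩
  · apply _root_.trdeg_le_of_injective e
    rw [injective_iff_map_eq_zero]
    intro a ha
    obtain ⟨a, rfl⟩ := Ideal.Quotient.mk_surjective a
    rw [he] at ha
    have h1 := congrArg Subtype.val ha
    exact Ideal.Quotient.eq_zero_iff_mem.2 h1

lemma gtd_def (x : ι → ℂ) : gtd k x = toNat (Algebra.trdeg k (MvPolynomial ι k ⧸ gI k x)) := by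
  unfold gtd
  rw [gtd_eq]

lemma gtd_lt (Q : Ideal (MvPolynomial ι k)) [Q.IsPrime] :
    Algebra.trdeg k (MvPolynomial ι k ⧸ Q) < ℵ₀ := trdeg_lt_aleph0_of_finiteType

theorem g_mono (x y : ι → ℂ) (hle : gI k x ≤ gI k y) :
    gtd k y ≤ gtd k x ∧ (gtd k x ≤ gtd k y → gI k y ≤ gI k x) := by
  rw [gtd_def, gtd_def]
  refine ⟨?_, fun h2 => ?_⟩
  · have h1 := _root_.trdeg_le_of_surjective (Ideal.Quotient.factorₐ k hle)
      (Ideal.Quotient.factor_surjective hle)
    exact toNat_le_toNat h1 (gtd_lt _)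
  · intro f hf
    by_contra h0
    have h1 := Pool.Agent.N769.BK.DIM.strict (Ideal.Quotient.factorₐ k hle)
      (Ideal.Quotient.factor_surjective hle) (Ideal.Quotient.mk _ f)
      (fun h => h0 (Ideal.Quotient.eq_zero_iff_mem.1 h)) (by
        show Ideal.Quotient.mk (gI k y) f = 0
        exact Ideal.Quotient.eq_zero_iff_mem.2 hf)
    have h3 := toNat_le_toNat h1 (gtd_lt _)
    rw [Cardinal.toNat_add (gtd_lt _) Cardinal.one_lt_aleph0, Cardinal.one_toNat] at h3
    omega

theorem g_krull [Countable k] (b a : ι → ℂ) (f : MvPolynomial ι k) (hle : gI k b ≤ gI k a)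
    (hb : f ∉ gI k b) (hfa : f ∈ gI k a) : ∃ b' : ι → ℂ, gI k b ≤ gI k b' ∧ gI k b' ≤ gI k a ∧
      f ∈ gI k b' ∧ gtd k b ≤ gtd k b' + 1 ∧
        gI k b' ∈ (gI k b ⊔ Ideal.span {f}).minimalPrimes := by
  obtain ⟨Q, hQ, hQa⟩ := Ideal.exists_minimalPrimes_le (I := gI k b ⊔ Ideal.span {f})
    (J := gI k a) (sup_le hle ((Ideal.span_singleton_le_iff_mem _).2 hfa))
  haveI : Q.IsPrime := hQ.1.1
  obtain ⟨b', hb'⟩ := gexists_pt Q
  refine ⟨b', ?_, ?_, ?_, ?_, ?_⟩
  · rw [hb']
    exact le_sup_left.trans hQ.1.2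
  · rw [hb']
    exact hQa
  · rw [hb']
    exact hQ.1.2 (Ideal.mem_sup_right (Ideal.mem_span_singleton_self f))
  · rw [gtd_def, gtd_def, hb']
    have hs : Function.Surjective (Ideal.Quotient.mk (gI k b)) := Ideal.Quotient.mk_surjective
    have h1 : gI k b ⊔ Ideal.span {f} =
        (Ideal.span {Ideal.Quotient.mk (gI k b) f}).comap (Ideal.Quotient.mk (gI k b)) := by
      rw [← Set.image_singleton, ← Ideal.map_span, Ideal.comap_map_of_surjective _ hs,
        ← RingHom.ker_eq_comap_bot, Ideal.mk_ker, sup_comm]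
    rw [h1, Ideal.comap_minimalPrimes_eq_of_surjective hs] at hQ
    obtain ⟨q, hq, rfl⟩ := hQ
    have h2 := Pool.Agent.N769.BK.DIM.dom (F := k) (A := MvPolynomial ι k ⧸ gI k b) _ q hq
    have h3 : Function.Surjective (Ideal.quotientMapₐ (R₁ := k) q
        (Ideal.Quotient.mkₐ k (gI k b)) le_rfl :
        (MvPolynomial ι k ⧸ q.comap (Ideal.Quotient.mkₐ k (gI k b))) →ₐ[k] _) :=
      Ideal.quotientMap_surjective (H := le_rfl) hs
    have h4 := _root_.trdeg_le_of_surjective _ h3
    have h5 : Algebra.trdeg k (MvPolynomial ι k ⧸ gI k b) ≤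
        Algebra.trdeg k (MvPolynomial ι k ⧸ q.comap (Ideal.Quotient.mk (gI k b))) + 1 :=
      h2.trans (add_le_add_left h4 1)
    have h6 : Algebra.trdeg k (MvPolynomial ι k ⧸ q.comap (Ideal.Quotient.mk (gI k b))) < ℵ₀ :=
      gtd_lt _
    have h7 := toNat_le_toNat h5 (Cardinal.add_lt_aleph0 h6 Cardinal.one_lt_aleph0)
    rwa [Cardinal.toNat_add h6 Cardinal.one_lt_aleph0, Cardinal.one_toNat] at h7
  · rw [hb']
    exact hQ

theorem g_gen [Countable k] : ∃ x : ι → ℂ, gtd k x = Nat.card ι ∧ ∀ y, gI k x ≤ gI k y := by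
  obtain ⟨x, hx⟩ := gexists_pt (ι := ι) (k := k) ⊥
  refine ⟨x, ?_, fun y => by rw [hx]; exact bot_le⟩
  rw [gtd_def, hx]
  have e : (MvPolynomial ι k ⧸ (⊥ : Ideal (MvPolynomial ι k))) ≃ₐ[k] MvPolynomial ι k :=
    AlgEquiv.quotientBot k _
  rw [e.trdeg_eq, MvPolynomial.trdeg_of_isDomain, Cardinal.lift_id]
  rfl

end gen

theorem a_mono : A_MONO := by
  intro ι _ K x y h
  exact g_mono (k := K) x y h

theorem a_krull : A_KRULL := by
  intro ι _ K hK b a f hba hb ha
  haveI : Countable K := hK.1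
  exact g_krull (k := K) b a f hba hb ha

theorem a_gen : A_GEN := by
  intro ι _ K hK
  haveI : Countable K := hK.1
  exact g_gen (k := K)

/-- a point with given ideal over a countable field -/
theorem exists_pt {ι : Type} [Finite ι] (K : Subfield ℂ) (hK : Countable K)
    (Q : Ideal (MvPolynomial ι K)) (hQ : Q.IsPrime) : ∃ b : ι → ℂ, vI K b = Q :=
  gexists_pt (k := K) Q

/-- countability of the generated fields -/
lemma fld_countable {ι : Type} [Finite ι] (K : Subfield ℂ) (hK : Countable K) (x : ι → ℂ) :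
    #(fld K x) ≤ ℵ₀ := by
  have h1 : (fld K x).toSubfield = Subfield.closure (Set.range (algebraMap K ℂ) ∪ Set.range x) :=
    rfl
  have h2 : #(Subfield.closure (Set.range (algebraMap K ℂ) ∪ Set.range x)) ≤ ℵ₀ := by
    refine (Subfield.cardinalMk_closure_le_max _).trans (max_le ?_ le_rfl)
    have : (Set.range (algebraMap K ℂ) ∪ Set.range x).Countable :=
      (Set.countable_range _).union (Set.countable_range _)
    exact this.le_aleph0
  rw [← h1] at h2
  exact h2

theorem a_new : A_NEW := by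
  intro ι _ K hK x m
  exact exists_ai (fld K x) (fld_countable K hK.1 x) (Fin m)

/-! ### A_DEF -/

/-- a countable set is contained in a countable algebraically closed field -/
lemma exists_gd {T : Set ℂ} (hT : T.Countable) : ∃ K : Subfield ℂ, Gd K ∧ T ⊆ K := by
  let K₀ : Subfield ℂ := Subfield.closure T
  have h0 : #K₀ ≤ ℵ₀ :=
    (Subfield.cardinalMk_closure_le_max _).trans (max_le hT.le_aleph0 le_rfl)
  let K₁ : IntermediateField K₀ ℂ := algebraicClosure K₀ ℂ
  haveI : IsAlgClosure K₀ K₁ := inferInstance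
  have h1 : #K₁ ≤ ℵ₀ := by
    haveI : Algebra.IsAlgebraic K₀ K₁ := IsAlgClosure.isAlgebraic
    exact (Algebra.IsAlgebraic.cardinalMk_le_max K₀ K₁).trans (max_le h0 le_rfl)
  refine ⟨K₁.toSubfield, ⟨?_, ?_⟩, fun z hz => ?_⟩
  · exact Cardinal.mk_le_aleph0_iff.1 h1
  · have : IsAlgClosed K₁ := IsAlgClosure.isAlgClosed K₀
    exact this
  · have h2 : z ∈ K₀ := Subfield.subset_closure hz
    exact K₁.algebraMap_mem ⟨z, h2⟩

theorem a_def : A_DEF := by
  classical
  intro ι _ S V hS hV
  choose P hP hVP using hV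
  -- generators
  have hfg : ∀ i, ∃ s : Finset (MvPolynomial ι ℂ), Ideal.span (s : Set (MvPolynomial ι ℂ)) = P i :=
    fun i => (isNoetherianRing_iff_ideal_fg _).1 inferInstance (P i)
  choose s hs using hfg
  let T : Set ℂ := S ∪ ⋃ i, ⋃ g ∈ s i, Set.range (fun m => g.coeff m)
  have hT : T.Countable := by
    refine hS.union (Set.countable_iUnion fun i => ?_)
    refine Set.Countable.biUnion (s i).countable_toSet fun g _ => ?_
    have : (Set.range (fun m => g.coeff m)) ⊆ insert 0 ((fun m => g.coeff m) '' g.support) := by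
      rintro _ ⟨m, rfl⟩
      by_cases h : m ∈ g.support
      · exact Or.inr ⟨m, h, rfl⟩
      · exact Or.inl (notMem_support_iff.1 h)
    exact ((((g.support.finite_toSet).image _).insert 0).subset this).countable
  obtain ⟨K, hK, hTK⟩ := exists_gd hT
  refine ⟨K, hK, fun z hz => hTK (Or.inl hz), fun i => ?_⟩
  -- the prime ideal over `K`
  let Q : Ideal (MvPolynomial ι K) := (P i).comap (MvPolynomial.map (algebraMap K ℂ))
  haveI : (P i).IsPrime := hP i
  have hQ : Q.IsPrime := Ideal.comap_isPrime _ _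
  obtain ⟨x, hx⟩ := exists_pt K hK.1 Q hQ
  refine ⟨x, ?_⟩
  have hae : ∀ (y : ι → ℂ) (f : MvPolynomial ι K), aeval y f =
      eval y (MvPolynomial.map (algebraMap K ℂ) f) := by
    intro y f
    rw [eval_map, aeval_def]
  -- the generators come from `K`
  have hgen : ∀ g ∈ s i, ∃ p : MvPolynomial ι K, MvPolynomial.map (algebraMap K ℂ) p = g := by
    intro g hg
    have hc : ∀ m, g.coeff m ∈ K := fun m => hTK (Or.inr (Set.mem_iUnion.2 ⟨i,
      Set.mem_iUnion₂.2 ⟨g, hg, m, rfl⟩⟩))
    refine ⟨∑ m ∈ g.support, monomial m ⟨g.coeff m, hc m⟩, ?_⟩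
    rw [map_sum]
    conv_rhs => rw [← support_sum_monomial_coeff g]
    refine Finset.sum_congr rfl fun m _ => ?_
    rw [map_monomial]
    rfl
  rw [hVP i]
  ext y
  constructor
  · intro hy f hf
    have h1 : f ∈ vI K x := hf
    rw [hx] at h1
    rw [hae]
    exact hy _ h1
  · intro hy f hf
    rw [← hs i] at hf
    refine Submodule.span_induction (p := fun f _ => eval y f = 0) ?_ ?_ ?_ ?_ hf
    · intro g hg
      obtain ⟨p, rfl⟩ := hgen g hg
      rw [← hae]
      apply hy
      have h1 : p ∈ Q := by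
        show MvPolynomial.map (algebraMap K ℂ) p ∈ P i
        rw [← hs i]
        exact Ideal.subset_span hg
      rw [← hx] at h1
      exact h1
    · exact map_zero _
    · intro a b _ _ ha hb
      rw [map_add, ha, hb, add_zero]
    · intro a b _ hb
      rw [smul_eq_mul, map_mul, hb, mul_zero]

end Pool.Agent.W2helper55.HL
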