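import Mathlib
import Pool.Agent.W2helper42.HL.Stm

/-!
# Project HL: every system of polynomials is computed with squares (C_POLY)
-/

set_option autoImplicit false
set_option linter.all false

namespace Pool.Agent.W2helper55.HL

open MvPolynomial
open Pool.Agent.W2helper42.HL

/-- the tuple with a new coordinate -/
def ex {ι : Type} (s : ℂ) (x : ι → ℂ) : Option ι → ℂ := fun o => o.elim s x

/-- affine functions with coefficients in `k` -/
def AffF {ι : Type} (k : Subfield ℂ) (g : (ι → ℂ) → ℂ) : Prop :=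
  ∃ L : MvPolynomial ι ℂ, (L.totalDegree ≤ 1 ∧ Over k L) ∧ ∀ x, g x = eval x L

section aff
variable {ι κ : Type} {k : Subfield ℂ}

lemma AffF.congr {g h : (ι → ℂ) → ℂ} (hg : AffF k g) (e : ∀ x, h x = g x) : AffF k h := by
  obtain ⟨L, hL, hx⟩ := hg
  exact ⟨L, hL, fun x => (e x).trans (hx x)⟩

lemma AffF.const {a : ℂ} (ha : a ∈ k) : AffF k (fun _ : ι → ℂ => a) := by
  classical
  refine ⟨C a, ⟨?_, fun m => ?_⟩, fun x => by rw [eval_C]⟩
  · rw [totalDegree_C]
    exact zero_le_one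
  · rw [coeff_C]
    split_ifs
    · exact ha
    · exact k.zero_mem

lemma AffF.coord (i : ι) : AffF k (fun x : ι → ℂ => x i) := by
  classical
  refine ⟨X i, ⟨?_, fun m => ?_⟩, fun x => by rw [eval_X]⟩
  · rw [totalDegree_X]
  · rw [coeff_X']
    split_ifs
    · exact k.one_mem
    · exact k.zero_mem

lemma AffF.add {g h : (ι → ℂ) → ℂ} (hg : AffF k g) (hh : AffF k h) : AffF k (fun x => g x + h x) := by
  obtain ⟨L, hL, hx⟩ := hg
  obtain ⟨M, hM, hy⟩ := hh
  refine ⟨L + M, ⟨(totalDegree_add L M).trans (max_le hL.1 hM.1), fun m => ?_⟩, fun x => ?_⟩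
  · rw [coeff_add]
    exact k.add_mem (hL.2 m) (hM.2 m)
  · show g x + h x = _
    rw [map_add, hx, hy]

lemma AffF.smul {g : (ι → ℂ) → ℂ} (hg : AffF k g) {a : ℂ} (ha : a ∈ k) :
    AffF k (fun x => a * g x) := by
  obtain ⟨L, hL, hx⟩ := hg
  refine ⟨C a * L, ⟨?_, fun m => ?_⟩, fun x => ?_⟩
  · refine (totalDegree_mul _ _).trans ?_
    rw [totalDegree_C, zero_add]
    exact hL.1
  · rw [coeff_C_mul]
    exact k.mul_mem ha (hL.2 m)
  · show a * g x = _
    rw [map_mul, eval_C, hx]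

lemma AffF.sum {σ : Type} (s : Finset σ) {g : σ → (ι → ℂ) → ℂ} (hg : ∀ j, AffF k (g j)) :
    AffF k (fun x => ∑ j ∈ s, g j x) := by
  classical
  induction s using Finset.induction_on with
  | empty => exact (AffF.const k.zero_mem).congr fun x => by simp
  | insert a s ha ih =>
    exact ((hg a).add ih).congr fun x => by rw [Finset.sum_insert ha]

/-- the coefficients of a polynomial of degree at most one -/
lemma form1 [Fintype ι] {L : MvPolynomial ι ℂ} (hL : L.totalDegree ≤ 1) :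
    L = C (L.coeff 0) + ∑ i, C (L.coeff (Finsupp.single i 1)) * X i := by
  classical
  ext m
  rw [coeff_add, coeff_C, coeff_sum]
  simp only [coeff_C_mul, coeff_X']
  by_cases h0 : m = 0
  · subst h0
    rw [if_pos rfl, Finset.sum_eq_zero, add_zero]
    intro i _
    rw [if_neg, mul_zero]
    intro h
    have := congrArg (fun f => f i) h
    simp at this
  · rw [if_neg (fun h => h0 h.symm), zero_add]
    by_cases h1 : ∃ i, Finsupp.single i 1 = m
    · obtain ⟨i, rfl⟩ := h1
      rw [Finset.sum_eq_single i]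
      · rw [if_pos rfl, mul_one]
      · intro j _ hj
        rw [if_neg, mul_zero]
        intro h
        exact hj (Finsupp.single_left_injective one_ne_zero h)
      · intro h
        exact absurd (Finset.mem_univ i) h
    · rw [Finset.sum_eq_zero]
      · apply coeff_eq_zero_of_totalDegree_lt
        refine lt_of_le_of_lt hL ?_
        by_contra hc
        rw [not_lt] at hc
        -- the degree is at most one
        obtain ⟨i, hi⟩ : ∃ i, m i ≠ 0 := by
          by_contra hn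
          apply h0
          ext i
          by_contra hi
          exact hn ⟨i, hi⟩
        apply h1
        refine ⟨i, ?_⟩
        have hi' : i ∈ m.support := Finsupp.mem_support_iff.2 hi
        have h2 : m i + ∑ j ∈ m.support.erase i, m j ≤ 1 := by
          rw [Finset.add_sum_erase _ _ hi']
          exact hc
        ext j
        rw [Finsupp.single_apply]
        split_ifs with hij
        · subst hij
          omega
        · by_contra hj
          have hj' : j ∈ m.support.erase i :=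
            Finset.mem_erase.2 ⟨fun h => hij h.symm, Finsupp.mem_support_iff.2 fun h => hj h.symm⟩
          have := Finset.single_le_sum (f := fun j => m j) (fun _ _ => Nat.zero_le _) hj'
          have h3 : m j ≠ 0 := fun h => hj h.symm
          have h4 : m j ≤ ∑ j ∈ m.support.erase i, m j := this
          omega
      · intro i _
        rw [if_neg, mul_zero]
        intro h
        exact h1 ⟨i, h⟩

lemma AffF.form [Fintype ι] {g : (ι → ℂ) → ℂ} (hg : AffF k g) :
    ∃ (a : ℂ) (c : ι → ℂ), a ∈ k ∧ (∀ i, c i ∈ k) ∧ ∀ x, g x = a + ∑ i, c i * x i := by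
  obtain ⟨L, hL, hx⟩ := hg
  refine ⟨L.coeff 0, fun i => L.coeff (Finsupp.single i 1), hL.2 _, fun i => hL.2 _, fun x => ?_⟩
  rw [hx]
  conv_lhs => rw [form1 hL.1]
  simp only [map_add, eval_C, map_sum, map_mul, eval_X]

lemma AffF.comp [Finite ι] {g : (ι → ℂ) → ℂ} (hg : AffF k g) {h : ι → (κ → ℂ) → ℂ}
    (hh : ∀ i, AffF k (h i)) : AffF k (fun z => g fun i => h i z) := by
  cases nonempty_fintype ι
  obtain ⟨a, c, ha, hc, hx⟩ := hg.form
  refine ((AffF.const ha).add (AffF.sum Finset.univ fun i => (hh i).smul (hc i))).congr fun z => ?_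
  rw [hx]

end aff

/-! ### tuples of functions -/

/-- the tuples of functions which are computed with `q` squares -/
def CompF (k : Subfield ℂ) {σ : Type} : ℕ → (ι : Type) → (σ → (ι → ℂ) → ℂ) → Prop
  | 0, _, F => ∀ j, AffF k (F j)
  | q + 1, ι, F => ∃ (g : (ι → ℂ) → ℂ) (F₁ : σ → (Option ι → ℂ) → ℂ), AffF k g ∧
      CompF k q (Option ι) F₁ ∧ ∀ j x, F j x = F₁ j (ex (g x ^ 2) x)

/-- affine combinations -/
def InA {ι σ : Type} [Fintype σ] (k : Subfield ℂ) (F : σ → (ι → ℂ) → ℂ) (g : (ι → ℂ) → ℂ) : Prop :=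
  ∃ (a : ℂ) (c : σ → ℂ), a ∈ k ∧ (∀ j, c j ∈ k) ∧ ∀ x, g x = a + ∑ j, c j * F j x

section ina
variable {ι σ : Type} [Fintype σ] {k : Subfield ℂ} {F : σ → (ι → ℂ) → ℂ} {g h : (ι → ℂ) → ℂ}

lemma InA.const {a : ℂ} (ha : a ∈ k) : InA k F (fun _ => a) :=
  ⟨a, 0, ha, fun _ => k.zero_mem, fun x => by simp⟩

lemma InA.self (j : σ) : InA k F (F j) := by
  classical
  refine ⟨0, fun l => if l = j then 1 else 0, k.zero_mem, fun l => ?_, fun x => ?_⟩
  · show (if l = j then (1 : ℂ) else 0) ∈ k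
    split_ifs
    · exact k.one_mem
    · exact k.zero_mem
  · simp

lemma InA.add (hg : InA k F g) (hh : InA k F h) : InA k F (fun x => g x + h x) := by
  obtain ⟨a, c, ha, hc, hx⟩ := hg
  obtain ⟨b, d, hb, hd, hy⟩ := hh
  refine ⟨a + b, fun j => c j + d j, k.add_mem ha hb, fun j => k.add_mem (hc j) (hd j), fun x => ?_⟩
  show g x + h x = _
  rw [hx, hy]
  simp only [add_mul, Finset.sum_add_distrib]
  ring

lemma InA.smul (hg : InA k F g) {b : ℂ} (hb : b ∈ k) : InA k F (fun x => b * g x) := by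
  obtain ⟨a, c, ha, hc, hx⟩ := hg
  refine ⟨b * a, fun j => b * c j, k.mul_mem hb ha, fun j => k.mul_mem hb (hc j), fun x => ?_⟩
  show b * g x = _
  rw [hx, mul_add, Finset.mul_sum]
  congr 1
  exact Finset.sum_congr rfl fun j _ => by ring

lemma InA.congr (hg : InA k F g) (e : ∀ x, h x = g x) : InA k F h := by
  obtain ⟨a, c, ha, hc, hx⟩ := hg
  exact ⟨a, c, ha, hc, fun x => (e x).trans (hx x)⟩

end ina

lemma compF_ina {k : Subfield ℂ} {σ τ : Type} [Fintype σ] : ∀ (q : ℕ) (ι : Type)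
    (F : σ → (ι → ℂ) → ℂ) (G : τ → (ι → ℂ) → ℂ), CompF k q ι F → (∀ l, InA k F (G l)) →
    CompF k q ι G := by
  intro q
  induction q with
  | zero =>
    intro ι F G hF hG l
    obtain ⟨a, c, ha, hc, hx⟩ := hG l
    exact ((AffF.const ha).add (AffF.sum Finset.univ fun j => (hF j).smul (hc j))).congr hx
  | succ q ih =>
    intro ι F G hF hG
    obtain ⟨g, F₁, hg, h1, hx⟩ := hF
    choose a c ha hc hy using hG
    refine ⟨g, fun l y => a l + ∑ j, c l j * F₁ j y, hg, ih (Option ι) F₁ _ h1 (fun l =>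
      ⟨a l, c l, ha l, hc l, fun x => rfl⟩), fun l x => ?_⟩
    rw [hy]
    congr 1
    exact Finset.sum_congr rfl fun j _ => by rw [hx]

/-- a new square -/
lemma compF_sq {k : Subfield ℂ} {σ : Type} [Fintype σ] : ∀ (q : ℕ) (ι : Type) [Finite ι]
    (F : σ → (ι → ℂ) → ℂ) (h : (ι → ℂ) → ℂ), CompF k q ι F → InA k F h →
    CompF k (q + 1) ι (fun (o : Option σ) (x : ι → ℂ) => o.elim (h x ^ 2) fun j => F j x) := by
  intro q
  induction q with
  | zero =>
    intro ι _ F h hF hh
    obtain ⟨a, c, ha, hc, hx⟩ := hh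
    have hA : AffF k h :=
      ((AffF.const ha).add (AffF.sum Finset.univ fun j => (hF j).smul (hc j))).congr hx
    refine ⟨h, fun o y => o.elim (y none) fun j => F j fun i => y (some i), hA, ?_, ?_⟩
    · rintro (_ | j)
      · exact AffF.coord none
      · exact AffF.comp (hF j) (h := fun i (y : Option ι → ℂ) => y (some i))
          fun i => AffF.coord (some i)
    · rintro (_ | j) x
      · rfl
      · rfl
  | succ q ih =>
    intro ι _ F h hF hh
    obtain ⟨g, F₁, hg, h1, hx⟩ := hF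
    obtain ⟨a, c, ha, hc, hy⟩ := hh
    have := ih (Option ι) F₁ (fun y => a + ∑ j, c j * F₁ j y) h1 ⟨a, c, ha, hc, fun _ => rfl⟩
    refine ⟨g, _, hg, this, ?_⟩
    rintro (_ | j) x
    · show h x ^ 2 = (a + ∑ j, c j * F₁ j (ex (g x ^ 2) x)) ^ 2
      rw [hy]
      congr 2
      exact Finset.sum_congr rfl fun j _ => by rw [hx]
    · exact hx j x

/-- `F'` computes more than `F` -/
def Mor {ι : Type} (k : Subfield ℂ) {σ σ' : Type} [Fintype σ] [Fintype σ'] (F : σ → (ι → ℂ) → ℂ)
    (F' : σ' → (ι → ℂ) → ℂ) : Prop := ∀ g, InA k F g → InA k F' g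

lemma mor_opt {ι : Type} {k : Subfield ℂ} {σ : Type} [Fintype σ] (F : σ → (ι → ℂ) → ℂ)
    (s : (ι → ℂ) → ℂ) : Mor k F (fun (o : Option σ) (x : ι → ℂ) => o.elim (s x) fun j => F j x) := by
  rintro g ⟨a, c, ha, hc, hx⟩
  refine ⟨a, fun o => o.elim 0 c, ha, ?_, fun x => ?_⟩
  · rintro (_ | j)
    · exact k.zero_mem
    · exact hc j
  · rw [hx, Fintype.sum_option]
    simp

/-- products -/
lemma exists_mul {ι : Type} [Finite ι] {k : Subfield ℂ} {σ : Type} [Fintype σ] {q : ℕ}
    {F : σ → (ι → ℂ) → ℂ} (hF : CompF k q ι F) {g h : (ι → ℂ) → ℂ} (hg : InA k F g)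
    (hh : InA k F h) : ∃ (q' : ℕ) (σ' : Type) (_ : Fintype σ') (F' : σ' → (ι → ℂ) → ℂ),
      CompF k q' ι F' ∧ Mor k F F' ∧ InA k F' (fun x => g x * h x) := by
  have h1 := compF_sq q ι F (fun x => g x + h x) hF (hg.add hh)
  have m1 := mor_opt (k := k) F (fun x => (g x + h x) ^ 2)
  set F1 : Option σ → (ι → ℂ) → ℂ := fun o x => o.elim ((g x + h x) ^ 2) fun j => F j x with hF1
  have h2 := compF_sq (q + 1) ι F1 (fun x => g x + (-1) * h x) h1
    (m1 _ (hg.add (hh.smul (k.neg_mem k.one_mem))))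
  have m2 := mor_opt (k := k) F1 (fun x => (g x + (-1) * h x) ^ 2)
  set F2 : Option (Option σ) → (ι → ℂ) → ℂ := fun o x =>
    o.elim ((g x + (-1) * h x) ^ 2) fun j => F1 j x with hF2
  refine ⟨_, _, inferInstance, F2, h2, fun g' hg' => m2 _ (m1 _ hg'), ?_⟩
  have e1 : InA k F2 (F2 (some none)) := InA.self _
  have e2 : InA k F2 (F2 none) := InA.self _
  have h4 : (4 : ℂ)⁻¹ ∈ k := k.inv_mem (by exact_mod_cast natCast_mem k 4)
  refine ((e1.smul h4).add (e2.smul (k.neg_mem h4))).congr fun x => ?_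
  show g x * h x = 4⁻¹ * (g x + h x) ^ 2 + -4⁻¹ * (g x + (-1) * h x) ^ 2
  ring

/-- polynomials -/
lemma exists_poly {ι : Type} [Finite ι] {k : Subfield ℂ} (p : MvPolynomial ι k) :
    ∀ (q : ℕ) (σ : Type) [Fintype σ] (F : σ → (ι → ℂ) → ℂ), CompF k q ι F →
      (∀ i, InA k F (fun x => x i)) →
      ∃ (q' : ℕ) (σ' : Type) (_ : Fintype σ') (F' : σ' → (ι → ℂ) → ℂ),
        CompF k q' ι F' ∧ Mor k F F' ∧ InA k F' (fun x => aeval x p) := by
  induction p using MvPolynomial.induction_on with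
  | C a =>
    intro q σ _ F hF hi
    refine ⟨q, σ, inferInstance, F, hF, fun g hg => hg, (InA.const a.2).congr fun x => ?_⟩
    rw [aeval_C]
    rfl
  | add p r hp hr =>
    intro q σ _ F hF hi
    obtain ⟨q1, σ1, _, F1, c1, m1, i1⟩ := hp q σ F hF hi
    obtain ⟨q2, σ2, _, F2, c2, m2, i2⟩ := hr q1 σ1 F1 c1 fun i => m1 _ (hi i)
    refine ⟨q2, σ2, inferInstance, F2, c2, fun g hg => m2 _ (m1 _ hg), ?_⟩
    exact ((m2 _ i1).add i2).congr fun x => by rw [map_add]
  | mul_X p i hp =>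
    intro q σ _ F hF hi
    obtain ⟨q1, σ1, _, F1, c1, m1, i1⟩ := hp q σ F hF hi
    obtain ⟨q2, σ2, _, F2, c2, m2, i2⟩ := exists_mul c1 i1 (m1 _ (hi i))
    refine ⟨q2, σ2, inferInstance, F2, c2, fun g hg => m2 _ (m1 _ hg), ?_⟩
    exact i2.congr fun x => by rw [map_mul, aeval_X]

lemma exists_polys {ι : Type} [Finite ι] {k : Subfield ℂ} : ∀ (m : ℕ)
    (p : Fin m → MvPolynomial ι k), ∃ (q' : ℕ) (σ' : Type) (_ : Fintype σ')
      (F' : σ' → (ι → ℂ) → ℂ), CompF k q' ι F' ∧ (∀ i, InA k F' (fun x => x i)) ∧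
        ∀ j, InA k F' (fun x => aeval x (p j)) := by
  intro m
  induction m with
  | zero =>
    intro p
    cases nonempty_fintype ι
    exact ⟨0, ι, inferInstance, fun i x => x i, fun i => AffF.coord i, fun i => InA.self i,
      fun j => j.elim0⟩
  | succ m ih =>
    intro p
    obtain ⟨q1, σ1, _, F1, c1, i1, j1⟩ := ih fun j => p j.castSucc
    obtain ⟨q2, σ2, _, F2, c2, m2, i2⟩ := exists_poly (p (Fin.last m)) q1 σ1 F1 c1 i1
    refine ⟨q2, σ2, inferInstance, F2, c2, fun i => m2 _ (i1 i), fun j => ?_⟩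
    refine Fin.lastCases ?_ (fun j => ?_) j
    · exact i2
    · exact m2 _ (j1 j)

/-- from functions to zero sets -/
lemma compF_comp {k : Subfield ℂ} {m : ℕ} : ∀ (q : ℕ) (ι : Type) (F : Fin m → (ι → ℂ) → ℂ),
    CompF k q ι F → Comp k q ι m {x | ∀ i, F i x = 0} := by
  intro q
  induction q with
  | zero =>
    intro ι F hF
    choose L hL hx using hF
    refine ⟨L, hL, ?_⟩
    ext x
    simp only [Set.mem_setOf_eq, hx]
  | succ q ih =>
    intro ι F hF
    obtain ⟨g, F₁, ⟨A, hA, hx⟩, h1, hy⟩ := hF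
    refine ⟨A, {y | ∀ i, F₁ i y = 0}, hA.1, hA.2, ih (Option ι) F₁ h1, ?_⟩
    ext x
    simp only [Set.mem_setOf_eq, hy, hx]
    rfl

lemma exists_map {ι : Type} {k : Subfield ℂ} {f : MvPolynomial ι ℂ} (hf : Over k f) :
    ∃ p : MvPolynomial ι k, ∀ x, eval x f = aeval x p := by
  refine ⟨∑ m ∈ f.support, monomial m ⟨f.coeff m, hf m⟩, fun x => ?_⟩
  have h : map (algebraMap k ℂ) (∑ m ∈ f.support, monomial m (⟨f.coeff m, hf m⟩ : k)) = f := by
    rw [map_sum]
    conv_rhs => rw [← support_sum_monomial_coeff f]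
    refine Finset.sum_congr rfl fun m _ => ?_
    rw [map_monomial]
    rfl
  conv_lhs => rw [← h]
  rw [eval_map, aeval_def]

theorem c_poly : C_POLY := by
  intro k ι _ m f hf
  choose p hp using fun i => exists_map (hf i)
  obtain ⟨q, σ, _, F, c1, -, j1⟩ := exists_polys m p
  refine ⟨q, ?_⟩
  have h1 := compF_comp q ι _ (compF_ina q ι F (fun i x => aeval x (p i)) c1 j1)
  have e : {x : ι → ℂ | ∀ i, eval x (f i) = 0} = {x | ∀ i, aeval x (p i) = 0} := by
    ext x
    simp only [Set.mem_setOf_eq, hp]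
  rw [e]
  exact h1

/-! ### the induction -/

/-- substitution of affine functions -/
lemma comp_subst {k : Subfield ℂ} {m : ℕ} : ∀ (q : ℕ) (ι κ : Type) [Finite ι] (C : Set (ι → ℂ))
    (h : ι → (κ → ℂ) → ℂ), (∀ i, AffF k (h i)) → Comp k q ι m C →
    Comp k q κ m {z | (fun i => h i z) ∈ C} := by
  intro q
  induction q with
  | zero =>
    rintro ι κ _ C h hh ⟨L, hL, rfl⟩
    have : ∀ i, AffF k (fun z => eval (fun s => h s z) (L i)) := fun i =>
      AffF.comp (g := fun x => eval x (L i)) ⟨L i, hL i, fun x => rfl⟩ hh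
    choose M hM hx using this
    refine ⟨M, hM, ?_⟩
    ext z
    simp only [Set.mem_setOf_eq, hx]
  | succ q ih =>
    rintro ι κ _ C h hh ⟨A, C₁, hA1, hA2, hC, rfl⟩
    obtain ⟨B, hB, hx⟩ := AffF.comp (g := fun x => eval x A) ⟨A, ⟨hA1, hA2⟩, fun x => rfl⟩ hh
    have h1 := ih (Option ι) (Option κ) C₁ (fun o y => o.elim (y none) fun i => h i fun s => y (some s))
      (by
        rintro (_ | i)
        · exact AffF.coord none
        · obtain ⟨N, hN, hy⟩ := hh i
          refine ⟨rename some N, ⟨(totalDegree_rename_le _ _).trans hN.1, ?_⟩, fun y => ?_⟩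
          · intro d
            by_cases hd : ∃ u : κ →₀ ℕ, u.mapDomain some = d
            · obtain ⟨u, rfl⟩ := hd
              rw [coeff_rename_mapDomain some (Option.some_injective _)]
              exact hN.2 u
            · rw [coeff_rename_eq_zero some N d (fun u hu => absurd ⟨u, hu⟩ hd)]
              exact k.zero_mem
          · show h i (fun s => y (some s)) = _
            rw [hy, eval_rename]
            rfl) hC
    refine ⟨B, _, hB.1, hB.2, h1, ?_⟩
    ext z
    simp only [Set.mem_setOf_eq]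
    have e : (fun o : Option ι => o.elim (eval (fun i => h i z) A ^ 2) fun i => h i z) =
        fun i : Option ι => i.elim ((fun o : Option κ => o.elim (eval z B ^ 2) z) none) fun i =>
          h i fun s => (fun o : Option κ => o.elim (eval z B ^ 2) z) (some s) := by
      funext o
      rcases o with _ | i
      · show eval (fun i => h i z) A ^ 2 = eval z B ^ 2
        rw [← hx]
      · rfl
    rw [e]

/-- new linear equations -/
lemma comp_inter {k : Subfield ℂ} {m l : ℕ} : ∀ (q : ℕ) (ι : Type) [Finite ι] (C : Set (ι → ℂ))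
    (M : Fin l → (ι → ℂ) → ℂ), (∀ i, AffF k (M i)) → Comp k q ι m C →
    Comp k q ι (m + l) {z | z ∈ C ∧ ∀ i, M i z = 0} := by
  intro q
  induction q with
  | zero =>
    rintro ι _ C M hM ⟨L, hL, rfl⟩
    choose N hN hx using hM
    refine ⟨Fin.addCases L N, ?_, ?_⟩
    · intro i
      refine Fin.addCases (fun i => ?_) (fun i => ?_) i
      · beta_reduce
        rw [Fin.addCases_left]
        exact hL i
      · beta_reduce
        rw [Fin.addCases_right]
        exact hN i
    · ext z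
      simp only [Set.mem_setOf_eq]
      constructor
      · rintro ⟨h1, h2⟩ i
        refine Fin.addCases (fun i => ?_) (fun i => ?_) i
        · rw [Fin.addCases_left]
          exact h1 i
        · rw [Fin.addCases_right, ← hx]
          exact h2 i
      · intro h
        refine ⟨fun i => ?_, fun i => ?_⟩
        · have := h (Fin.castAdd l i)
          rwa [Fin.addCases_left] at this
        · have := h (Fin.natAdd m i)
          rwa [Fin.addCases_right, ← hx] at this
  | succ q ih =>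
    rintro ι _ C M hM ⟨A, C₁, hA1, hA2, hC, rfl⟩
    have h1 := ih (Option ι) C₁ (fun i y => M i fun s => y (some s)) (fun i =>
      AffF.comp (hM i) (h := fun s (y : Option ι → ℂ) => y (some s)) fun s => AffF.coord (some s)) hC
    exact ⟨A, _, hA1, hA2, h1, rfl⟩

/-- the sets are algebraic -/
lemma comp_alg {k : Subfield ℂ} {m : ℕ} : ∀ (q : ℕ) (ι : Type) (C : Set (ι → ℂ)),
    Comp k q ι m C → ∃ (J : ℕ) (f : Fin J → MvPolynomial ι ℂ), C = {x | ∀ j, eval x (f j) = 0} := by
  intro q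
  induction q with
  | zero =>
    rintro ι C ⟨L, hL, rfl⟩
    exact ⟨m, L, rfl⟩
  | succ q ih =>
    rintro ι C ⟨A, C₁, hA1, hA2, hC, rfl⟩
    obtain ⟨J, f, rfl⟩ := ih (Option ι) C₁ hC
    refine ⟨J, fun j => bind₁ (fun o : Option ι => o.elim (A ^ 2) X) (f j), ?_⟩
    ext x
    simp only [Set.mem_setOf_eq]
    have e : ∀ j, eval x (bind₁ (fun o : Option ι => o.elim (A ^ 2) X) (f j)) =
        eval (fun o : Option ι => o.elim (eval x A ^ 2) x) (f j) := by
      intro j
      have h1 : eval x (bind₁ (fun o : Option ι => o.elim (A ^ 2) X) (f j)) =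
          eval (fun o : Option ι => eval x (o.elim (A ^ 2) X)) (f j) :=
        eval₂Hom_bind₁ (RingHom.id ℂ) x (fun o : Option ι => o.elim (A ^ 2) X) (f j)
      rw [h1]
      congr 2
      funext o
      rcases o with _ | i
      · show eval x (A ^ 2) = eval x A ^ 2
        rw [map_pow]
      · show eval x (X i) = x i
        rw [eval_X]
    simp only [e]

lemma AffF.neg {ι : Type} {k : Subfield ℂ} {g : (ι → ℂ) → ℂ} (hg : AffF k g) :
    AffF k (fun x => -g x) := (hg.smul (k.neg_mem k.one_mem)).congr fun x => by ring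

lemma AffF.sub {ι : Type} {k : Subfield ℂ} {g h : (ι → ℂ) → ℂ} (hg : AffF k g) (hh : AffF k h) :
    AffF k (fun x => g x - h x) := (hg.add hh.neg).congr fun x => by ring

lemma aff_sqf {ι : Type} {k : Subfield ℂ} {β γ : ℂ} (hβ : β ∈ k) (hγ : γ ∈ k) (c : Fin 6) :
    AffF k (fun z : ι ⊕ (Fin 6 × Fin 4) → ℂ => sqf β γ (fun s => z (Sum.inr s)) c) :=
  (((((AffF.coord (Sum.inr (c, 1))).add (AffF.coord (Sum.inr (c, 2)))).add
    (AffF.coord (Sum.inr (c, 3)))).sub ((AffF.coord (Sum.inr (c, 0))).smul hβ)).sub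
      (AffF.const hγ)).congr fun z => rfl

lemma aff_sqs {ι : Type} {k : Subfield ℂ} {β γ : ℂ} (hβ : β ∈ k) (hγ : γ ∈ k) :
    AffF k (fun z : ι ⊕ (Fin 6 × Fin 4) → ℂ => sqs β γ (fun s => z (Sum.inr s))) := by
  have h3 : (3 : ℂ)⁻¹ ∈ k := k.inv_mem (by exact_mod_cast natCast_mem k 3)
  have h9 : (9 : ℂ)⁻¹ ∈ k := k.inv_mem (by exact_mod_cast natCast_mem k 9)
  refine (((((aff_sqf hβ hγ 0).add (aff_sqf hβ hγ 1)).add (aff_sqf hβ hγ 2)).smul h3).sub
    ((((aff_sqf hβ hγ 3).add (aff_sqf hβ hγ 4)).add (aff_sqf hβ hγ 5)).smul h9)).congr fun z => ?_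
  unfold sqs
  ring

/-- **C_MAIN** -/
theorem c_main (β γ : ℂ) (hsq : R_SQ β γ) : C_MAIN β γ := by
  intro k hβ hγ hlin q
  induction q with
  | zero =>
    intro ι _ m C hC
    exact hlin ι m C hC
  | succ q ih =>
    rintro ι _ m C ⟨A, C₁, hA1, hA2, hC1, rfl⟩
    have hC1' := hC1
    obtain ⟨J, f, rfl⟩ := comp_alg q (Option ι) C₁ hC1
    refine hsq ι A J m f ?_
    apply ih (ι ⊕ (Fin 6 × Fin 4)) (m + 4)
    have h3 : (3 : ℂ) ∈ k := by exact_mod_cast natCast_mem k 3
    have hA : AffF k (fun z : ι ⊕ (Fin 6 × Fin 4) → ℂ => eval (fun s => z (Sum.inl s)) A) :=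
      AffF.comp (g := fun x => eval x A) ⟨A, ⟨hA1, hA2⟩, fun x => rfl⟩
        (h := fun s (z : ι ⊕ (Fin 6 × Fin 4) → ℂ) => z (Sum.inl s)) fun s => AffF.coord (Sum.inl s)
    have h1 := comp_subst q (Option ι) (ι ⊕ (Fin 6 × Fin 4)) _
      (fun o z => o.elim (sqs β γ fun s => z (Sum.inr s)) fun i => z (Sum.inl i)) (by
        rintro (_ | i)
        · exact aff_sqs hβ hγ
        · exact AffF.coord (Sum.inl i)) hC1'
    have c : ∀ l : Fin 6, AffF k (fun z : ι ⊕ (Fin 6 × Fin 4) → ℂ => z (Sum.inr (l, 0))) :=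
      fun l => AffF.coord _
    have h2 := comp_inter q (ι ⊕ (Fin 6 × Fin 4)) _
      (![fun z => 3 * z (Sum.inr (0, 0)) - (3 * eval (fun s => z (Sum.inl s)) A +
            (z (Sum.inr (3, 0)) + z (Sum.inr (5, 0)))),
        fun z => 3 * z (Sum.inr (1, 0)) - (3 * eval (fun s => z (Sum.inl s)) A +
            (z (Sum.inr (4, 0)) - z (Sum.inr (3, 0)))),
        fun z => 3 * z (Sum.inr (2, 0)) - (3 * eval (fun s => z (Sum.inl s)) A -
            (z (Sum.inr (3, 0)) + z (Sum.inr (5, 0))) - (z (Sum.inr (4, 0)) - z (Sum.inr (3, 0)))),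
        fun z => z (Sum.inr (5, 0)) - (z (Sum.inr (3, 0)) + z (Sum.inr (4, 0)))] :
        Fin 4 → (ι ⊕ (Fin 6 × Fin 4) → ℂ) → ℂ) (by
        intro i
        fin_cases i
        · exact ((c 0).smul h3).sub ((hA.smul h3).add ((c 3).add (c 5)))
        · exact ((c 1).smul h3).sub ((hA.smul h3).add ((c 4).sub (c 3)))
        · exact ((c 2).smul h3).sub (((hA.smul h3).sub ((c 3).add (c 5))).sub ((c 4).sub (c 3)))
        · exact (c 5).sub ((c 3).add (c 4))) h1
    convert h2 using 1
    ext z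
    simp only [Set.mem_setOf_eq, Fin.forall_fin_succ, Sq4]
    simp [sub_eq_zero]

end Pool.Agent.W2helper55.HL
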