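import Pool.Agent.W2helper55.HL.Main

/-!
# The colouring
-/

universe u

open Cardinal Ordinal Set

namespace Pool.Agent.W2helper55.HL

open Pool.Agent.H348R6.HLT

theorem exists_weight (c : Cardinal.{u}) (hc : ℵ₀ ≤ c) : ∃ w : Ordinal.{u} → ℕ,
    ∀ k, Cardinal.lift.{u + 1} c ≤ #{y | y ∈ Iio c.ord ∧ k < w y} := by
  classical
  have h1 : #(Iio c.ord × ULift.{u + 1} ℕ) = #(Iio c.ord) := by
    rw [Cardinal.mk_prod, Cardinal.mk_uLift, Cardinal.mk_nat, Cardinal.lift_id, Cardinal.lift_id,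
      Cardinal.mk_Iio_ordinal, Cardinal.card_ord, Cardinal.lift_aleph0]
    exact Cardinal.mul_aleph0_eq (by simpa using hc)
  obtain ⟨e⟩ := Cardinal.eq.1 h1
  refine ⟨fun y => if h : y < c.ord then (e.symm ⟨y, h⟩).2.down else 0, fun k => ?_⟩
  have h2 : #(Iio c.ord) = Cardinal.lift.{u + 1} c := by
    rw [Cardinal.mk_Iio_ordinal, Cardinal.card_ord]
  rw [← h2]
  refine Cardinal.mk_le_of_injective (f := fun q : Iio c.ord =>
    (⟨(e (q, ⟨k + 1⟩)).1, (e (q, ⟨k + 1⟩)).2, ?_⟩ :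
      {y | y ∈ Iio c.ord ∧ k < if h : y < c.ord then (e.symm ⟨y, h⟩).2.down else 0})) ?_
  · have h3 : (e (q, ⟨k + 1⟩)).1 < c.ord := (e (q, ⟨k + 1⟩)).2
    rw [dif_pos h3]
    have h4 : (⟨(e (q, ⟨k + 1⟩)).1, h3⟩ : Iio c.ord) = e (q, ⟨k + 1⟩) := rfl
    rw [h4, Equiv.symm_apply_apply]
    exact Nat.lt_succ_self k
  · intro a b hab
    have h5 := congrArg Subtype.val hab
    have h6 : (a, (⟨k + 1⟩ : ULift.{u + 1} ℕ)) = (b, ⟨k + 1⟩) := e.injective (Subtype.ext h5)
    exact congrArg Prod.fst h6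

/-- A colouring defined by recursion along two predecessors. -/
noncomputable def col (p q : Ordinal.{u} → Node.{u} → Node.{u} → Ordinal.{u})
    (w : Ordinal.{u} → Node.{u} → Node.{u} → ℕ) : Ordinal.{u} → Node.{u} → Node.{u} → ℕ :=
  WellFounded.fix (wellFounded_lt (α := Ordinal.{u})) fun β ih s t =>
    max (w β s t) (max (if h : p β s t < β then ih (p β s t) h s t else 0)
      (if h : q β s t < β then ih (q β s t) h s t else 0))

section

variable (p q : Ordinal.{u} → Node.{u} → Node.{u} → Ordinal.{u})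
  (w : Ordinal.{u} → Node.{u} → Node.{u} → ℕ)

theorem col_eq (β : Ordinal.{u}) (s t : Node.{u}) : col p q w β s t =
    max (w β s t) (max (if p β s t < β then col p q w (p β s t) s t else 0)
      (if q β s t < β then col p q w (q β s t) s t else 0)) := by
  unfold col
  rw [WellFounded.fix_eq]
  split_ifs <;> rfl

theorem w_le_col (β : Ordinal.{u}) (s t : Node.{u}) : w β s t ≤ col p q w β s t := by
  rw [col_eq]
  exact le_max_left _ _

theorem col_p_le {β : Ordinal.{u}} {s t : Node.{u}} (h : p β s t < β) :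
    col p q w (p β s t) s t ≤ col p q w β s t := by
  conv_rhs => rw [col_eq]
  rw [if_pos h]
  exact (le_max_left _ _).trans (le_max_right _ _)

theorem col_q_le {β : Ordinal.{u}} {s t : Node.{u}} (h : q β s t < β) :
    col p q w (q β s t) s t ≤ col p q w β s t := by
  conv_rhs => rw [col_eq]
  rw [if_pos h]
  exact (le_max_right _ _).trans (le_max_right _ _)

end

variable {κ θ : Cardinal.{u}} {μ : Ordinal.{u} → Cardinal.{u}}

/-- The functions `m` at the limit levels. -/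
theorem Data.exists_m (h : Data κ θ μ)
    (hS : ∀ l, θ < l → l < κ → l.IsStrongLimit → ¬ l.IsRegular → 2 ^ l = Order.succ l)
    {β : Ordinal.{u}} (hβκ : β < κ.ord) (hβ : Order.IsSuccLimit β) :
    ∃ D : Set Ordinal.{u}, (∀ δ ∈ D, δ < β) ∧ #D ≤ Cardinal.lift.{u + 1} β.cof ∧
      ∃ m : Node.{u} → Node.{u} → Ordinal.{u},
        (∀ s ∈ level (fat κ (br μ)) β, ∀ t ∈ level (fat κ (br μ)) β, m s t ∈ D) ∧
        ∀ α, Sparse (Cardinal.lift.{u + 1} (μ α)) (level (fat κ (br μ)) β)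
          (fun s t => m s t ≤ α) := by
  obtain ⟨D, hD1, hD2, hD3⟩ := exists_cofinal β
  have h0 : (0 : Ordinal.{u}) < β := by
    rw [pos_iff_ne_zero]
    exact hβ.ne_bot
  obtain ⟨m, hm1, hm2⟩ := exists_normal (level (fat κ (br μ)) β) (supμ μ β)
    ((h.inf 0).trans (h.le_supμ h0)) (h.mk_level_le hβκ hβ hS) D μ (fun _ _ _ hα => h.mono hα) (by
      intro x hx
      obtain ⟨α, hα, hxα⟩ := exists_ord_lt_of_lt_supμ hx
      obtain ⟨δ, hδ, hαδ⟩ := hD2 α hα
      exact ⟨δ, hδ, hxα.trans_le (Cardinal.ord_le_ord.2 (h.mono hαδ))⟩)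
  exact ⟨D, hD1, hD3, m, hm1, hm2⟩

theorem Data.exists_col (h : Data κ θ μ)
    (hS : ∀ l, θ < l → l < κ → l.IsStrongLimit → ¬ l.IsRegular → 2 ^ l = Order.succ l)
    (wt : Ordinal.{u} → Ordinal.{u} → ℕ) :
    ∃ c : Ordinal.{u} → Node.{u} → Node.{u} → ℕ, ∀ α β, α < β → β < κ.ord →
      ∀ s t : Ordinal.{u} → Node.{u},
      (∀ x ∈ Iio (br μ α), s x ∈ fat κ (br μ) ∧ β ≤ (s x).len ∧ (s x).fn α = x) →
      (∀ x ∈ Iio (br μ α), t x ∈ fat κ (br μ) ∧ β ≤ (t x).len ∧ (t x).fn α = x) →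
      Sparse (Cardinal.lift.{u + 1} (μ α)) (Iio (br μ α))
        (fun x y => c β (s x) (t y) < max (wt α x) (wt α y)) := by
  classical
  have hm : ∀ β : Ordinal.{u}, ∃ (D : Set Ordinal.{u}) (m : Node.{u} → Node.{u} → Ordinal.{u})
      (γ : Ordinal.{u}), β < κ.ord → Order.IsSuccLimit β →
        (∀ δ ∈ D, δ < β) ∧ #D ≤ Cardinal.lift.{u + 1} β.cof ∧
        (∀ s ∈ level (fat κ (br μ)) β, ∀ t ∈ level (fat κ (br μ)) β, m s t ∈ D) ∧
        (∀ α, Sparse (Cardinal.lift.{u + 1} (μ α)) (level (fat κ (br μ)) β)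
          (fun s t => m s t ≤ α)) ∧ γ < β ∧ ∀ α, γ ≤ α → α < β → β.cof ≤ μ α := by
    intro β
    by_cases h1 : β < κ.ord ∧ Order.IsSuccLimit β
    · obtain ⟨D, hD1, hD2, m, hm1, hm2⟩ := h.exists_m hS h1.1 h1.2
      obtain ⟨γ, hγ1, hγ2⟩ := h.cof β h1.1 h1.2
      exact ⟨D, m, γ, fun _ _ => ⟨hD1, hD2, hm1, hm2, hγ1, hγ2⟩⟩
    · exact ⟨∅, fun _ _ => 0, 0, fun h2 h3 => absurd ⟨h2, h3⟩ h1⟩
  choose D m γ hall using hm
  have hpr : ∀ β : Ordinal.{u}, ∃ b : Ordinal.{u}, ∀ α, β = α + 1 → b = α := by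
    intro β
    by_cases h1 : ∃ α, β = α + 1
    · obtain ⟨α, rfl⟩ := h1
      exact ⟨α, fun α' h2 => by
        rw [← Order.succ_eq_add_one, ← Order.succ_eq_add_one] at h2
        exact Order.succ_injective h2⟩
    · exact ⟨0, fun α h2 => absurd ⟨α, h2⟩ h1⟩
  choose pr hpr using hpr
  set p : Ordinal.{u} → Node.{u} → Node.{u} → Ordinal.{u} := fun β _ _ =>
    if Order.IsSuccLimit β then γ β else pr β with hp
  set q : Ordinal.{u} → Node.{u} → Node.{u} → Ordinal.{u} := fun β s t =>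
    m β (cut s β) (cut t β) with hq
  set w : Ordinal.{u} → Node.{u} → Node.{u} → ℕ := fun β s t =>
    max (wt (pr β) (s.fn (pr β))) (wt (pr β) (t.fn (pr β))) with hw
  refine ⟨col p q w, fun α β => ?_⟩
  induction β using WellFoundedLT.induction with
  | ind β IH =>
  intro hαβ hβκ s t hs ht
  have hmono : ∀ δ, α < δ → δ < β → (∀ x ∈ Iio (br μ α), ∀ y ∈ Iio (br μ α),
      col p q w δ (s x) (t y) ≤ col p q w β (s x) (t y)) →
      Sparse (Cardinal.lift.{u + 1} (μ α)) (Iio (br μ α))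
        (fun x y => col p q w β (s x) (t y) < max (wt α x) (wt α y)) := by
    intro δ hαδ hδβ hle
    refine (IH δ hδβ hαδ (hδβ.trans hβκ) s t
      (fun x hx => ⟨(hs x hx).1, hδβ.le.trans (hs x hx).2.1, (hs x hx).2.2⟩)
      (fun x hx => ⟨(ht x hx).1, hδβ.le.trans (ht x hx).2.1, (ht x hx).2.2⟩)).mono ?_
    intro x hx y hy hxy
    exact (hle x hx y hy).trans_lt hxy
  rcases Ordinal.zero_or_succ_or_isSuccLimit β with rfl | ⟨γ', rfl⟩ | hlim
  · exact absurd hαβ (by simp)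
  · rw [Order.succ_eq_add_one] at *
    have hpr' : pr (γ' + 1) = γ' := hpr _ _ rfl
    have hnl : ¬ Order.IsSuccLimit (γ' + 1) := by
      rw [← Order.succ_eq_add_one]
      exact Order.not_isSuccLimit_succ γ'
    rcases (Order.lt_add_one_iff.1 hαβ).eq_or_lt with rfl | hα
    · refine sparse_of_false fun x hx y hy => ?_
      rw [not_lt]
      refine le_trans ?_ (w_le_col p q w (α + 1) (s x) (t y))
      simp only [hw, hpr', (hs x hx).2.2, (ht y hy).2.2]
      exact le_rfl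
    · have h1 : ∀ s t, p (γ' + 1) s t = γ' := by
        intro s t
        simp only [hp, if_neg hnl, hpr']
      refine hmono γ' hα (Order.lt_add_one_iff.2 le_rfl) fun x hx y hy => ?_
      have h2 := col_p_le p q w (β := γ' + 1) (s := s x) (t := t y)
        (by rw [h1 (s x) (t y)]; exact Order.lt_add_one_iff.2 le_rfl)
      rwa [h1 (s x) (t y)] at h2
  · obtain ⟨hD1, hD2, hm1, hm2, hγ1, hγ2⟩ := hall β hβκ hlim
    have h1 : ∀ s t, p β s t = γ β := by
      intro s t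
      simp only [hp, if_pos hlim]
    rcases lt_or_ge α (γ β) with hα | hα
    · refine hmono (γ β) hα hγ1 fun x hx y hy => ?_
      have h2 := col_p_le p q w (β := β) (s := s x) (t := t y)
        (by rw [h1 (s x) (t y)]; exact hγ1)
      rwa [h1 (s x) (t y)] at h2
    · have hC : ℵ₀ ≤ Cardinal.lift.{u + 1} (μ α) := by simpa using h.inf α
      have hcs : ∀ x ∈ Iio (br μ α), cut (s x) β ∈ level (fat κ (br μ)) β := fun x hx =>
        ⟨cut_mem_fat (hs x hx).1 β, cut_len (hs x hx).2.1⟩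
      have hct : ∀ x ∈ Iio (br μ α), cut (t x) β ∈ level (fat κ (br μ)) β := fun x hx =>
        ⟨cut_mem_fat (ht x hx).1 β, cut_len (ht x hx).2.1⟩
      have hsi : InjOn (fun x => cut (s x) β) (Iio (br μ α)) := by
        intro x hx y hy hxy
        have h3 : (cut (s x) β).fn α = (cut (s y) β).fn α := congrArg (fun z => z.fn α) hxy
        rw [cut_fn hαβ, cut_fn hαβ, (hs x hx).2.2, (hs y hy).2.2] at h3
        exact h3
      have hti : InjOn (fun x => cut (t x) β) (Iio (br μ α)) := by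
        intro x hx y hy hxy
        have h3 : (cut (t x) β).fn α = (cut (t y) β).fn α := congrArg (fun z => z.fn α) hxy
        rw [cut_fn hαβ, cut_fn hαβ, (ht x hx).2.2, (ht y hy).2.2] at h3
        exact h3
      have hA : Sparse (Cardinal.lift.{u + 1} (μ α)) (Iio (br μ α))
          (fun x y => m β (cut (s x) β) (cut (t y) β) ≤ α) :=
        sparse_pullback (hm2 α) hcs hct hsi hti
      have hB : Sparse (Cardinal.lift.{u + 1} (μ α)) (Iio (br μ α))
          (fun x y => ∃ δ ∈ {δ | δ ∈ D β ∧ α < δ},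
            col p q w δ (s x) (t y) < max (wt α x) (wt α y)) := by
        refine sparse_biUnion hC {δ | δ ∈ D β ∧ α < δ} ?_
          (fun δ x y => col p q w δ (s x) (t y) < max (wt α x) (wt α y)) ?_
        · refine (Cardinal.mk_le_mk_of_subset fun δ hδ => hδ.1).trans (hD2.trans ?_)
          rw [Cardinal.lift_le]
          exact hγ2 α hα hαβ
        · rintro δ ⟨hδ, hαδ⟩
          have hδβ := hD1 δ hδ
          exact IH δ hδβ hαδ (hδβ.trans hβκ) s t
            (fun x hx => ⟨(hs x hx).1, hδβ.le.trans (hs x hx).2.1, (hs x hx).2.2⟩)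
            (fun x hx => ⟨(ht x hx).1, hδβ.le.trans (ht x hx).2.1, (ht x hx).2.2⟩)
      refine (hA.or hC hB).mono fun x hx y hy hxy => ?_
      have hmD := hm1 _ (hcs x hx) _ (hct y hy)
      rcases le_or_gt (m β (cut (s x) β) (cut (t y) β)) α with h4 | h4
      · exact Or.inl h4
      · right
        refine ⟨_, ⟨hmD, h4⟩, ?_⟩
        refine lt_of_le_of_lt ?_ hxy
        exact col_q_le p q w (β := β) (s := s x) (t := t y) (hD1 _ hmD)

end Pool.Agent.W2helper55.HL
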