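import Pool.Agent.W2helper55.HL.Final

/-!
# Inaccessible cardinals which are not Mahlo
-/

universe u

open Cardinal Ordinal Set

namespace Pool.Agent.W2helper55.HL

open Pool.Agent.H348R6.HLT

/-- `C` is a closed unbounded subset of the cardinal `κ` (identified with the initial ordinal
`κ.ord`). -/
structure IsClub (κ : Cardinal.{u}) (C : Set Ordinal.{u}) : Prop where
  lt : ∀ α ∈ C, α < κ.ord
  unbounded : ∀ β < κ.ord, ∃ α ∈ C, β < α
  closed : ∀ δ < κ.ord, δ ≠ 0 → (∀ β < δ, ∃ α ∈ C, β < α ∧ α < δ) → δ ∈ C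

/-- `κ` is a Mahlo cardinal: `κ` is (strongly) inaccessible and the set of the inaccessible
cardinals below `κ` is stationary in `κ`. -/
def IsMahlo (κ : Cardinal.{u}) : Prop :=
  κ.IsInaccessible ∧ ∀ C, IsClub κ C → ∃ l : Cardinal.{u}, l.IsInaccessible ∧ l.ord ∈ C

/-- The recursive definition of the sequence. -/
noncomputable def mu (base : Ordinal.{u} → Cardinal.{u}) : Ordinal.{u} → Cardinal.{u} :=
  WellFounded.fix (wellFounded_lt (α := Ordinal.{u})) fun α ih =>
    sInf {c | base α ≤ c ∧ ∀ i (h : i < α), Order.succ (2 ^ ih i h) ≤ c}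

section

variable (base : Ordinal.{u} → Cardinal.{u})

theorem mu_eq (α : Ordinal.{u}) :
    mu base α = sInf {c | base α ≤ c ∧ ∀ i, i < α → Order.succ (2 ^ mu base i) ≤ c} := by
  unfold mu
  rw [WellFounded.fix_eq]

theorem mu_mem (α : Ordinal.{u}) :
    mu base α ∈ {c | base α ≤ c ∧ ∀ i, i < α → Order.succ (2 ^ mu base i) ≤ c} := by
  rw [mu_eq]
  refine csInf_mem ?_
  obtain ⟨c, hc⟩ := Cardinal.bddAbove_range
    (fun i : Iio α => Order.succ ((2 : Cardinal.{u}) ^ mu base i.1))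
  exact ⟨max (base α) c, le_max_left _ _, fun i hi => (hc ⟨⟨i, hi⟩, rfl⟩).trans (le_max_right _ _)⟩

theorem mu_lt {κ : Cardinal.{u}} (hκ : κ.IsInaccessible) (hb : ∀ α < κ.ord, base α < κ)
    {α : Ordinal.{u}} (hα : α < κ.ord) : mu base α < κ := by
  induction α using WellFoundedLT.induction with
  | ind α IH =>
  have hlim := Cardinal.isSuccLimit_ord hκ.aleph0_lt.le
  obtain ⟨γ, hγ, h⟩ := bdd_lift hκ.isRegular
    (fun i : Iio α => (Order.succ ((2 : Cardinal.{u}) ^ mu base i.1)).ord) (by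
      rw [Cardinal.mk_Iio_ordinal, Cardinal.lift_lt]
      exact Cardinal.lt_ord.1 hα) (by
      intro i
      rw [Cardinal.ord_lt_ord]
      exact hκ.isSuccLimit.succ_lt (hκ.isStrongPrelimit (IH i.1 i.2 (lt_trans i.2 hα))))
  rw [mu_eq]
  refine lt_of_le_of_lt (csInf_le' (show max (base α) γ.card ∈ _ from
    ⟨le_max_left _ _, fun i hi => ?_⟩)) (max_lt (hb α hα) (Cardinal.lt_ord.1 hγ))
  refine le_trans ?_ (le_max_right _ _)
  have h1 := Ordinal.card_le_card (h ⟨i, hi⟩)
  rwa [Cardinal.card_ord] at h1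

end

theorem exists_data {κ θ : Cardinal.{u}} (hκ : κ.IsInaccessible) (hM : ¬ IsMahlo κ)
    (hθ : θ < κ) : ∃ μ, Data κ θ μ := by
  classical
  have h1 : ∃ C, IsClub κ C ∧ ∀ l : Cardinal.{u}, l.IsInaccessible → l.ord ∉ C := by
    by_contra hc
    push Not at hc
    exact hM ⟨hκ, hc⟩
  obtain ⟨C, hC, hCl⟩ := h1
  set nxt : Ordinal.{u} → Ordinal.{u} := fun α => sInf {γ | γ ∈ C ∧ α < γ} with hnxt
  have hnm : ∀ α < κ.ord, nxt α ∈ {γ | γ ∈ C ∧ α < γ} := fun α hα => by
    obtain ⟨γ, h2, h3⟩ := hC.unbounded α hα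
    exact csInf_mem ⟨γ, h2, h3⟩
  set base : Ordinal.{u} → Cardinal.{u} := fun α =>
    max (max ℵ₀ (Order.succ θ)) (max α.card (nxt α).card) with hbase
  have hb : ∀ α < κ.ord, base α < κ := fun α hα =>
    max_lt (max_lt hκ.aleph0_lt (hκ.isSuccLimit.succ_lt hθ))
      (max_lt (Cardinal.lt_ord.1 hα) (Cardinal.lt_ord.1 (hC.lt _ (hnm α hα).1)))
  have hbm : ∀ α, base α ≤ mu base α := fun α => (mu_mem base α).1
  have hcard : ∀ α, α.card ≤ mu base α := fun α =>
    ((le_max_left _ _).trans (le_max_right _ _)).trans (hbm α)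
  have hinf : ∀ α, ℵ₀ ≤ mu base α := fun α =>
    ((le_max_left _ _).trans (le_max_left _ _)).trans (hbm α)
  have hgrow : ∀ α α', α < α' → Order.succ (2 ^ mu base α) ≤ mu base α' := fun α α' h =>
    (mu_mem base α').2 α h
  have hmono : ∀ α α', α ≤ α' → mu base α ≤ mu base α' := by
    intro α α' h
    rcases h.eq_or_lt with rfl | h
    · exact le_rfl
    · exact ((Cardinal.cantor _).le.trans (Order.le_succ _)).trans (hgrow _ _ h)
  refine ⟨mu base, ⟨hinf, fun α => ?_, fun α hα => mu_lt base hκ hb hα, hcard, hgrow, ?_⟩⟩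
  · exact (Order.lt_succ θ).trans_le
      (((le_max_right _ _).trans (le_max_left _ _)).trans (hbm α))
  · intro β hβκ hβ
    rcases (Ordinal.ord_cof_le β).lt_or_eq with h2 | h2
    · refine ⟨β.cof.ord, h2, fun α hα _ => ?_⟩
      refine le_trans ?_ (hcard α)
      have h3 := Ordinal.card_le_card hα
      rwa [Cardinal.card_ord] at h3
    · have hreg : β.cof.IsRegular := Cardinal.isRegular_cof hβ
      by_cases hin : β.cof.IsInaccessible
      · have h3 : β ∉ C := by
          rw [← h2]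
          exact hCl _ hin
        have h4 : ∃ γ < β, ∀ α ∈ C, γ < α → β ≤ α := by
          by_contra hc
          push Not at hc
          refine h3 (hC.closed β hβκ hβ.ne_bot fun γ hγ => ?_)
          obtain ⟨α, h5, h6, h7⟩ := hc γ hγ
          exact ⟨α, h5, h6, h7⟩
        obtain ⟨γ, hγ, h4⟩ := h4
        refine ⟨γ, hγ, fun α hα hαβ => ?_⟩
        obtain ⟨h5, h6⟩ := hnm α (hαβ.trans hβκ)
        have h7 : β ≤ nxt α := h4 _ h5 (hα.trans_lt h6)
        refine (Ordinal.cof_le_card β).trans ((Ordinal.card_le_card h7).trans ?_)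
        exact ((le_max_right _ _).trans (le_max_right _ _)).trans (hbm α)
      · rcases le_or_gt β.cof ℵ₀ with h5 | h5
        · exact ⟨0, by rw [pos_iff_ne_zero]; exact hβ.ne_bot, fun α _ _ => h5.trans (hinf α)⟩
        · have h6 : ¬ β.cof.IsStrongPrelimit := fun h7 => hin ⟨h5, hreg.2, h7⟩
          have h8 : ∃ x < β.cof, β.cof ≤ 2 ^ x := by
            by_contra hc
            push Not at hc
            exact h6 fun x hx => hc x hx
          obtain ⟨x, hx, hx2⟩ := h8
          have hxβ : x.ord < β := by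
            rw [← h2]
            exact Cardinal.ord_lt_ord.2 hx
          refine ⟨x.ord + 1, hβ.add_one_lt hxβ, fun α hα _ => hx2.trans ?_⟩
          have h9 : x ≤ mu base x.ord := by
            have := hcard x.ord
            rwa [Cardinal.card_ord] at this
          refine (Cardinal.power_le_power_left two_ne_zero h9).trans ((Order.le_succ _).trans ?_)
          exact hgrow _ _ ((Order.lt_add_one_iff.2 le_rfl).trans_le hα)

/-- If there is no inaccessible cardinal below `κ`, then `κ` is not Mahlo. -/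
theorem not_isMahlo {κ : Cardinal.{u}} (h : ∀ l < κ, ¬ l.IsInaccessible) : ¬ IsMahlo κ := by
  rintro ⟨hκ, hM⟩
  obtain ⟨l, hl, hlC⟩ := hM {α | α < κ.ord}
    ⟨fun α hα => hα, fun β hβ => ⟨β + 1, add_one_lt_ord hκ.aleph0_lt.le hβ,
      Order.lt_add_one_iff.2 le_rfl⟩, fun δ hδ _ _ => hδ⟩
  exact h l (Cardinal.ord_lt_ord.1 hlC) hl

end Pool.Agent.W2helper55.HL
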