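import Pool.Agent.W2helper55.HL.Col

/-!
# Failure of `HL` from a sequence of cardinals
-/

universe u

open Cardinal Ordinal Set

namespace Pool.Agent.W2helper55.HL

open Pool.Agent.H348R6.HLT

variable {κ θ : Cardinal.{u}} {μ : Ordinal.{u} → Cardinal.{u}}

/-- Above a level `α ∈ A` a strong subtree of the tree `fat κ M` contains nodes of every length
`β > α` through every immediate successor. -/
theorem exists_family (hκ : ℵ₀ ≤ κ) {M : Ordinal.{u} → Ordinal.{u}} {A : Set Ordinal.{u}}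
    {T' : Set Node.{u}} (h : IsStrongSubtree κ (fat κ M) A T') {α β : Ordinal.{u}} (hα : α ∈ A)
    (hαβ : α < β) (hβ : β < κ.ord) :
    ∃ s : Ordinal.{u} → Node.{u}, ∀ x ∈ Iio (M α),
      s x ∈ T' ∧ (s x).len = β ∧ (s x).fn α = x := by
  classical
  obtain ⟨v, hv, hvl⟩ := h.toIsRegularTree.level_nonempty α (hαβ.trans hβ)
  have hex : ∀ x : Ordinal.{u}, ∃ y : Node.{u}, x ∈ Iio (M α) →
      y ∈ T' ∧ y.len = β ∧ y.fn α = x := by
    intro x
    by_cases hx : x < M α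
    · have h1 : snoc v x ∈ T' := by
        refine h.of_mem v hv (by rw [hvl]; exact hα) _ ⟨?_, le_snoc _ _, rfl⟩
        exact snoc_mem_fat hκ (h.sub hv) (by rw [hvl]; exact hx)
      obtain ⟨y, hy, hyl, hsy⟩ := exists_ext h.toIsRegularTree h1 hβ (by
        rw [snoc_len, hvl]
        exact Order.add_one_le_of_lt hαβ)
      refine ⟨y, fun _ => ⟨hy, hyl, ?_⟩⟩
      have h2 := hsy.2 v.len (Order.lt_add_one_iff.2 le_rfl)
      rw [snoc_fn, hvl] at h2
      exact h2.symm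
    · exact ⟨v, fun h' => absurd h' hx⟩
  choose s hs using hex
  exact ⟨s, fun x hx => hs x hx⟩

/-- The colouring is unbounded above a level of a pair of strong subtrees. -/
theorem Data.exists_unbounded (h : Data κ θ μ)
    (hS : ∀ l, θ < l → l < κ → l.IsStrongLimit → ¬ l.IsRegular → 2 ^ l = Order.succ l) :
    ∃ c : Ordinal.{u} → Node.{u} → Node.{u} → ℕ, ∀ α β, α < β → β < κ.ord →
      ∀ s t : Ordinal.{u} → Node.{u},
      (∀ x ∈ Iio (br μ α), s x ∈ fat κ (br μ) ∧ (s x).len = β ∧ (s x).fn α = x) →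
      (∀ x ∈ Iio (br μ α), t x ∈ fat κ (br μ) ∧ (t x).len = β ∧ (t x).fn α = x) →
      ∃ B : Set Ordinal.{u}, #B ≤ Cardinal.lift.{u + 1} (μ α) ∧
        ∀ x ∈ Iio (br μ α), x ∉ B → ∀ k : ℕ, ∃ y ∈ Iio (br μ α), k < c β (s x) (t y) := by
  classical
  have hw : ∀ α : Ordinal.{u}, ∃ w : Ordinal.{u} → ℕ,
      ∀ k, Cardinal.lift.{u + 1} (Order.succ (Order.succ (μ α))) ≤
        #{y | y ∈ Iio (br μ α) ∧ k < w y} := fun α =>
    exists_weight _ ((h.inf α).trans ((Order.le_succ _).trans (Order.le_succ _)))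
  choose wt hwt using hw
  obtain ⟨c, hc⟩ := h.exists_col hS wt
  refine ⟨c, fun α β hαβ hβ s t hs ht => ?_⟩
  have h1 := hc α β hαβ hβ s t (fun x hx => ⟨(hs x hx).1, (hs x hx).2.1.ge, (hs x hx).2.2⟩)
    (fun x hx => ⟨(ht x hx).1, (ht x hx).2.1.ge, (ht x hx).2.2⟩)
  have hC : ℵ₀ ≤ Cardinal.lift.{u + 1} (μ α) := by simpa using h.inf α
  obtain ⟨B, hB, hB2⟩ := h1.exists_good hC (wt α) (by
    intro k
    refine lt_of_lt_of_le ?_ (hwt α k)
    rw [← Cardinal.lift_succ, Cardinal.lift_lt]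
    exact Order.lt_succ _)
  refine ⟨B, hB, fun x hx hxB k => ?_⟩
  obtain ⟨y, hy, hky, hn⟩ := hB2 x hx hxB k
  exact ⟨y, hy, hky.trans_le ((le_max_right _ _).trans (not_lt.1 hn))⟩

theorem Data.exists_not_mem (h : Data κ θ μ) {α : Ordinal.{u}} {B : Set Ordinal.{u}}
    (hB : #B ≤ Cardinal.lift.{u + 1} (μ α)) : ∃ x ∈ Iio (br μ α), x ∉ B := by
  by_contra hc
  push Not at hc
  have h1 := (Cardinal.mk_le_mk_of_subset (show Iio (br μ α) ⊆ B from hc)).trans hB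
  rw [Cardinal.mk_Iio_ordinal, Cardinal.lift_le, br, Cardinal.card_ord] at h1
  exact absurd h1 (not_le.2 ((Order.lt_succ _).trans (Order.lt_succ _)))

theorem Data.not_HL_two (h : Data κ θ μ) (hκ : κ.IsInaccessible)
    (hS : ∀ l, θ < l → l < κ → l.IsStrongLimit → ¬ l.IsRegular → 2 ^ l = Order.succ l)
    {d : ℕ} (hd : 2 ≤ d) {σ : Cardinal.{u}} (hσ : ℵ₀ ≤ σ) : ¬ HL d σ κ := by
  classical
  intro H
  have hκ0 : ℵ₀ ≤ κ := hκ.aleph0_lt.le
  obtain ⟨c, hc⟩ := h.exists_unbounded hS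
  set i0 : Fin d := ⟨0, by omega⟩ with hi0
  set i1 : Fin d := ⟨1, by omega⟩ with hi1
  have h01 : i0 ≠ i1 := by simp [hi0, hi1, Fin.ext_iff]
  have hω : ω ≤ σ.ord := by
    rw [← Cardinal.ord_aleph0]
    exact Cardinal.ord_le_ord.2 hσ
  obtain ⟨A, hA, T', hT', j, hj⟩ := H (fun _ => fat κ (br μ)) (fun _ => h.regular hκ)
    (fun x => ((c (x i0).len (x i0) (x i1) : ℕ) : Ordinal.{u}))
    (fun x => (Ordinal.natCast_lt_omega0 _).trans_le hω)
  obtain ⟨α, hαA, -⟩ := hA.2 0 (ord_pos' hκ0)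
  have hακ := hA.1 α hαA
  obtain ⟨β, hβA, hβ⟩ := hA.2 (α + 1) (add_one_lt_ord hκ0 hακ)
  have hβκ := hA.1 β hβA
  have hαβ : α < β := (Order.lt_add_one_iff.2 le_rfl).trans_le hβ
  obtain ⟨s, hs⟩ := exists_family hκ0 (hT' i0) hαA hαβ hβκ
  obtain ⟨t, ht⟩ := exists_family hκ0 (hT' i1) hαA hαβ hβκ
  obtain ⟨B, hB, hB2⟩ := hc α β hαβ hβκ s t
    (fun x hx => ⟨(hT' i0).sub (hs x hx).1, (hs x hx).2⟩)
    (fun x hx => ⟨(hT' i1).sub (ht x hx).1, (ht x hx).2⟩)
  obtain ⟨x, hx, hxB⟩ := h.exists_not_mem hB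
  have hne' : ∀ k : Fin d, (level (T' k) β).Nonempty :=
    fun k => (hT' k).level_nonempty β hβκ
  have key : ∀ y ∈ Iio (br μ α), ((c β (s x) (t y) : ℕ) : Ordinal.{u}) = j := by
    intro y hy
    have h1 := hj β hβA
      (Function.update (Function.update (fun k => (hne' k).some) i0 (s x)) i1 (t y)) (by
      intro k
      rcases eq_or_ne k i1 with rfl | hk
      · rw [Function.update_self]; exact ⟨(ht y hy).1, (ht y hy).2.1⟩
      · rw [Function.update_of_ne hk]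
        rcases eq_or_ne k i0 with rfl | hk0
        · rw [Function.update_self]; exact ⟨(hs x hx).1, (hs x hx).2.1⟩
        · rw [Function.update_of_ne hk0]; exact (hne' k).some_mem)
    simp only [Function.update_self, Function.update_of_ne h01, (hs x hx).2.1] at h1
    exact h1
  obtain ⟨y0, hy0, -⟩ := hB2 x hx hxB 0
  obtain ⟨y1, hy1, hlt⟩ := hB2 x hx hxB (c β (s x) (t y0))
  have h3 := (key y0 hy0).trans (key y1 hy1).symm
  exact absurd (Nat.cast_injective h3) hlt.ne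

theorem Data.not_HL_three (h : Data κ θ μ) (hκ : κ.IsInaccessible)
    (hS : ∀ l, θ < l → l < κ → l.IsStrongLimit → ¬ l.IsRegular → 2 ^ l = Order.succ l)
    {d : ℕ} (hd : 3 ≤ d) {σ : Cardinal.{u}} (hσ : 2 ≤ σ) : ¬ HL d σ κ := by
  classical
  intro H
  have hκ0 : ℵ₀ ≤ κ := hκ.aleph0_lt.le
  obtain ⟨c, hc⟩ := h.exists_unbounded hS
  set i0 : Fin d := ⟨0, by omega⟩ with hi0
  set i1 : Fin d := ⟨1, by omega⟩ with hi1
  set i2 : Fin d := ⟨2, by omega⟩ with hi2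
  have h01 : i0 ≠ i1 := by simp [hi0, hi1, Fin.ext_iff]
  have h02 : i0 ≠ i2 := by simp [hi0, hi2, Fin.ext_iff]
  have h12 : i1 ≠ i2 := by simp [hi1, hi2, Fin.ext_iff]
  have hσ2 : (2 : Ordinal.{u}) ≤ σ.ord := by
    have h3 := Cardinal.ord_le_ord.2 hσ
    have h4 : (2 : Cardinal.{u}).ord = 2 := by simp
    rwa [h4] at h3
  obtain ⟨A, hA, T', hT', j, hj⟩ := H (fun _ => fat κ (br μ)) (fun _ => h.regular hκ)
    (fun x => if c (x i0).len (x i0) (x i2) ≤ c (x i0).len (x i0) (x i1) then 0 else 1)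
    (fun x => by
      split_ifs
      · exact zero_lt_two.trans_le hσ2
      · exact one_lt_two.trans_le hσ2)
  obtain ⟨α, hαA, -⟩ := hA.2 0 (ord_pos' hκ0)
  have hακ := hA.1 α hαA
  obtain ⟨β, hβA, hβ⟩ := hA.2 (α + 1) (add_one_lt_ord hκ0 hακ)
  have hβκ := hA.1 β hβA
  have hαβ : α < β := (Order.lt_add_one_iff.2 le_rfl).trans_le hβ
  obtain ⟨s, hs⟩ := exists_family hκ0 (hT' i0) hαA hαβ hβκ
  obtain ⟨t, ht⟩ := exists_family hκ0 (hT' i1) hαA hαβ hβκ
  obtain ⟨r, hr⟩ := exists_family hκ0 (hT' i2) hαA hαβ hβκ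
  obtain ⟨B, hB, hB2⟩ := hc α β hαβ hβκ s t
    (fun x hx => ⟨(hT' i0).sub (hs x hx).1, (hs x hx).2⟩)
    (fun x hx => ⟨(hT' i1).sub (ht x hx).1, (ht x hx).2⟩)
  obtain ⟨B', hB', hB2'⟩ := hc α β hαβ hβκ s r
    (fun x hx => ⟨(hT' i0).sub (hs x hx).1, (hs x hx).2⟩)
    (fun x hx => ⟨(hT' i2).sub (hr x hx).1, (hr x hx).2⟩)
  have hC : ℵ₀ ≤ Cardinal.lift.{u + 1} (μ α) := by simpa using h.inf α
  obtain ⟨x, hx, hxB⟩ := h.exists_not_mem (mk_union_le_of hC hB hB')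
  have hne' : ∀ k : Fin d, (level (T' k) β).Nonempty :=
    fun k => (hT' k).level_nonempty β hβκ
  have key : ∀ y ∈ Iio (br μ α), ∀ z ∈ Iio (br μ α),
      (if c β (s x) (r z) ≤ c β (s x) (t y) then (0 : Ordinal.{u}) else 1) = j := by
    intro y hy z hz
    have h1 := hj β hβA
      (Function.update (Function.update (Function.update (fun k => (hne' k).some) i0 (s x))
        i1 (t y)) i2 (r z)) (by
      intro k
      rcases eq_or_ne k i2 with rfl | hk
      · rw [Function.update_self]; exact ⟨(hr z hz).1, (hr z hz).2.1⟩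
      · rw [Function.update_of_ne hk]
        rcases eq_or_ne k i1 with rfl | hk
        · rw [Function.update_self]; exact ⟨(ht y hy).1, (ht y hy).2.1⟩
        · rw [Function.update_of_ne hk]
          rcases eq_or_ne k i0 with rfl | hk0
          · rw [Function.update_self]; exact ⟨(hs x hx).1, (hs x hx).2.1⟩
          · rw [Function.update_of_ne hk0]; exact (hne' k).some_mem)
    simp only [Function.update_self, Function.update_of_ne h01, Function.update_of_ne h02,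
      Function.update_of_ne h12, (hs x hx).2.1] at h1
    exact h1
  have hxB1 : x ∉ B := fun h' => hxB (Or.inl h')
  have hxB2 : x ∉ B' := fun h' => hxB (Or.inr h')
  obtain ⟨y0, hy0, -⟩ := hB2 x hx hxB1 0
  obtain ⟨z1, hz1, hlt1⟩ := hB2' x hx hxB2 (c β (s x) (t y0))
  have h1 := key y0 hy0 z1 hz1
  rw [if_neg (not_le.2 hlt1)] at h1
  obtain ⟨y1, hy1, hlt2⟩ := hB2 x hx hxB1 (c β (s x) (r z1))
  have h2 := key y1 hy1 z1 hz1
  rw [if_pos hlt2.le] at h2
  exact zero_ne_one (h2.trans h1.symm)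

end Pool.Agent.W2helper55.HL
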