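import Pool.Agent.W2helper55.HL.Normal

/-!
# A colouring of pairs of nodes which is unbounded on all pairs of strong subtrees
-/

universe u

open Cardinal Ordinal Set

namespace Pool.Agent.W2helper55.HL

open Pool.Agent.H348R6.HLT

/-- A sequence of cardinals below `κ` which grows quickly and eventually dominates the cofinality
of every limit ordinal below `κ`. -/
structure Data (κ θ : Cardinal.{u}) (μ : Ordinal.{u} → Cardinal.{u}) : Prop where
  inf : ∀ α, ℵ₀ ≤ μ α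
  base : ∀ α, θ < μ α
  lt : ∀ α < κ.ord, μ α < κ
  card : ∀ α, α.card ≤ μ α
  grow : ∀ α α', α < α' → Order.succ (2 ^ μ α) ≤ μ α'
  cof : ∀ β < κ.ord, Order.IsSuccLimit β → ∃ γ < β, ∀ α, γ ≤ α → α < β → β.cof ≤ μ α

variable {κ θ : Cardinal.{u}} {μ : Ordinal.{u} → Cardinal.{u}}

theorem Data.mono (h : Data κ θ μ) {α α' : Ordinal.{u}} (hα : α ≤ α') : μ α ≤ μ α' := by
  rcases hα.eq_or_lt with rfl | hα
  · exact le_rfl
  · exact ((Cardinal.cantor _).le.trans (Order.le_succ _)).trans (h.grow _ _ hα)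

/-- The number of immediate successors of the nodes of length `α`. -/
noncomputable def br (μ : Ordinal.{u} → Cardinal.{u}) (α : Ordinal.{u}) : Ordinal.{u} :=
  (Order.succ (Order.succ (μ α))).ord

theorem Data.succ_succ_le (h : Data κ θ μ) {α α' : Ordinal.{u}} (hα : α < α') :
    Order.succ (Order.succ (μ α)) ≤ μ α' :=
  (Order.succ_le_succ (Order.succ_le_of_lt (Cardinal.cantor _))).trans (h.grow _ _ hα)

theorem Data.br_le (h : Data κ θ μ) {α α' : Ordinal.{u}} (hα : α < α') :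
    br μ α ≤ (μ α').ord :=
  Cardinal.ord_le_ord.2 (h.succ_succ_le hα)

theorem Data.br_lt (h : Data κ θ μ) (hκ : ℵ₀ ≤ κ) {α : Ordinal.{u}} (hα : α < κ.ord) :
    br μ α < κ.ord :=
  (h.br_le (Order.lt_add_one_iff.2 (le_refl α))).trans_lt
    (Cardinal.ord_lt_ord.2 (h.lt _ (add_one_lt_ord hκ hα)))

theorem Data.one_lt_br (h : Data κ θ μ) (α : Ordinal.{u}) : 1 < br μ α := by
  unfold br
  rw [Cardinal.lt_ord]
  have h1 : (1 : Ordinal.{u}).card = 1 := by simp
  rw [h1]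
  exact Cardinal.one_lt_aleph0.trans_le
    ((h.inf α).trans ((Order.le_succ _).trans (Order.le_succ _)))

theorem Data.regular (h : Data κ θ μ) (hκ : κ.IsInaccessible) : IsRegularTree κ (fat κ (br μ)) :=
  fat_regular hκ (fun _ hβ => h.br_lt hκ.aleph0_lt.le hβ) h.one_lt_br fun β hβ =>
    ⟨μ β, h.lt β hβ, h.inf β, h.card β, fun _ hδ => h.br_le hδ⟩

/-- The supremum of the `μ α`, `α < β`. -/
noncomputable def supμ (μ : Ordinal.{u} → Cardinal.{u}) (β : Ordinal.{u}) : Cardinal.{u} :=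
  sInf {c | ∀ α < β, μ α ≤ c}

theorem Data.supμ_mem (h : Data κ θ μ) (β : Ordinal.{u}) :
    supμ μ β ∈ {c | ∀ α < β, μ α ≤ c} :=
  csInf_mem ⟨μ β, fun _ hα => h.mono hα.le⟩

theorem Data.le_supμ (h : Data κ θ μ) {α β : Ordinal.{u}} (hα : α < β) : μ α ≤ supμ μ β :=
  h.supμ_mem β α hα

theorem Data.supμ_le (h : Data κ θ μ) (β : Ordinal.{u}) : supμ μ β ≤ μ β :=
  csInf_le' fun _ hα => h.mono hα.le

theorem exists_lt_of_lt_supμ {β : Ordinal.{u}} {c : Cardinal.{u}} (hc : c < supμ μ β) :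
    ∃ α < β, c < μ α := by
  by_contra hn
  push Not at hn
  exact absurd (csInf_le' (show c ∈ {c | ∀ α < β, μ α ≤ c} from hn)) (not_le.2 hc)

theorem exists_ord_lt_of_lt_supμ {β : Ordinal.{u}} {x : Ordinal.{u}} (hx : x < (supμ μ β).ord) :
    ∃ α < β, x < (μ α).ord := by
  obtain ⟨α, h1, h2⟩ := exists_lt_of_lt_supμ (Cardinal.lt_ord.1 hx)
  exact ⟨α, h1, Cardinal.lt_ord.2 h2⟩

section limit

variable {β : Ordinal.{u}}

theorem Data.lt_supμ (h : Data κ θ μ) (hβ : Order.IsSuccLimit β) {α : Ordinal.{u}} (hα : α < β) :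
    μ α < supμ μ β := by
  refine lt_of_lt_of_le ?_ (h.le_supμ (hβ.add_one_lt hα))
  exact (Order.lt_succ _).trans_le ((Order.le_succ _).trans
    (h.succ_succ_le (Order.lt_add_one_iff.2 (le_refl α))))

theorem Data.strong (h : Data κ θ μ) (hβ : Order.IsSuccLimit β) : (supμ μ β).IsStrongLimit := by
  refine ⟨?_, fun c hc => ?_⟩
  · have h0 : (0 : Ordinal.{u}) < β := by
      rw [pos_iff_ne_zero]
      exact hβ.ne_bot
    exact (Cardinal.aleph0_pos.trans_le ((h.inf 0).trans (h.le_supμ h0))).ne'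
  · obtain ⟨α, hα, hcα⟩ := exists_lt_of_lt_supμ hc
    have h1 : Order.succ (2 ^ μ α) ≤ μ (α + 1) := h.grow _ _ (Order.lt_add_one_iff.2 le_rfl)
    have h2 : (2 : Cardinal.{u}) ^ c ≤ 2 ^ μ α :=
      Cardinal.power_le_power_left two_ne_zero hcα.le
    exact (h2.trans_lt (Order.lt_succ _)).trans_le (h1.trans (h.le_supμ (hβ.add_one_lt hα)))

theorem Data.singular (h : Data κ θ μ) (hβκ : β < κ.ord) (hβ : Order.IsSuccLimit β) :
    ¬ (supμ μ β).IsRegular := by
  intro hr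
  obtain ⟨D, hD1, hD2, hD3⟩ := exists_cofinal β
  obtain ⟨γ, hγ, hγc⟩ := h.cof β hβκ hβ
  have h1 : #D < Cardinal.lift.{u + 1} (supμ μ β) := by
    refine hD3.trans_lt ?_
    rw [Cardinal.lift_lt]
    exact (hγc γ le_rfl hγ).trans_lt (h.lt_supμ hβ hγ)
  obtain ⟨x, hx, hxD⟩ := bdd_lift hr (fun δ : D => (μ δ.1).ord) h1
    fun δ => Cardinal.ord_lt_ord.2 (h.lt_supμ hβ (hD1 _ δ.2))
  obtain ⟨α, hα, hxα⟩ := exists_ord_lt_of_lt_supμ hx
  obtain ⟨δ, hδ, hαδ⟩ := hD2 α hα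
  exact absurd ((Cardinal.ord_le_ord.2 (h.mono hαδ)).trans (hxD ⟨δ, hδ⟩)) (not_le.2 hxα)

theorem Data.card_le_supμ (h : Data κ θ μ) (hβ : Order.IsSuccLimit β) : β.card ≤ supμ μ β := by
  by_contra hc
  push Not at hc
  have h1 : (supμ μ β).ord < β := by
    refine lt_of_le_of_ne (Cardinal.ord_le.2 hc.le) fun he => ?_
    have h5 := congrArg Ordinal.card he
    rw [Cardinal.card_ord] at h5
    exact absurd h5 hc.ne
  have h2 := h.lt_supμ hβ h1
  have h3 := h.card (supμ μ β).ord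
  rw [Cardinal.card_ord] at h3
  exact absurd h2 (not_lt.2 h3)

theorem Data.mk_level_le (h : Data κ θ μ) (hβκ : β < κ.ord) (hβ : Order.IsSuccLimit β)
    (hS : ∀ l, θ < l → l < κ → l.IsStrongLimit → ¬ l.IsRegular → 2 ^ l = Order.succ l) :
    #(level (fat κ (br μ)) β) ≤ Cardinal.lift.{u + 1} (Order.succ (supμ μ β)) := by
  have h0 : (0 : Ordinal.{u}) < β := by
    rw [pos_iff_ne_zero]
    exact hβ.ne_bot
  rw [← hS (supμ μ β) ((h.base 0).trans_le (h.le_supμ h0)) ((h.supμ_le β).trans_lt (h.lt β hβκ))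
    (h.strong hβ) (h.singular hβκ hβ)]
  exact HL.mk_level_le ((h.inf 0).trans (h.le_supμ h0)) (h.card_le_supμ hβ) fun δ hδ =>
    (h.br_le (Order.lt_add_one_iff.2 (le_refl δ))).trans
      (Cardinal.ord_le_ord.2 (h.le_supμ (hβ.add_one_lt hδ)))

end limit

end Pool.Agent.W2helper55.HL
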