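import Pool.Agent.W2helper55.HL.Tree

/-!
# Normal functions

If `E` has at most `λ⁺` elements and `λ` is the supremum of the cardinals `ν δ`, `δ ∈ D`, then there
is a function `m : E × E → D` such that the relations `m s t ≤ α` are `ν α`-sparse.
-/

universe u

open Cardinal Ordinal Set

namespace Pool.Agent.W2helper55.HL

theorem exists_cofinal (β : Ordinal.{u}) : ∃ D : Set Ordinal.{u}, (∀ δ ∈ D, δ < β) ∧
    (∀ α < β, ∃ δ ∈ D, α ≤ δ) ∧ #D ≤ Cardinal.lift.{u + 1} β.cof := by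
  obtain ⟨S, hS, hS'⟩ := Order.exists_cof_eq (Iio β)
  refine ⟨Subtype.val '' S, ?_, ?_, ?_⟩
  · rintro _ ⟨δ, _, rfl⟩
    exact δ.2
  · intro α hα
    obtain ⟨δ, hδ, h⟩ := hS ⟨α, hα⟩
    exact ⟨δ.1, ⟨δ, hδ, rfl⟩, h⟩
  · refine (Cardinal.mk_image_le).trans ?_
    rw [hS', Ordinal.cof_Iio, Ordinal.lift_cof]


theorem sparse_pullback {ι ι' : Type u} {C : Cardinal.{u}} {E : Set ι} {R : ι → ι → Prop}
    (h : Sparse C E R) {X : Set ι'} {f g : ι' → ι} (hf : ∀ x ∈ X, f x ∈ E) (hg : ∀ x ∈ X, g x ∈ E)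
    (hfi : InjOn f X) (hgi : InjOn g X) : Sparse C X (fun x y => R (f x) (g y)) := by
  obtain ⟨P, Q, h1, h2, h3⟩ := h
  refine ⟨fun x y => P (f x) (g y), fun x y => Q (f x) (g y),
    fun x hx y hy hr => h1 _ (hf x hx) _ (hg y hy) hr, ?_, ?_⟩
  · intro y hy
    refine le_trans ?_ (h2 (g y) (hg y hy))
    refine Cardinal.mk_le_of_injective
      (f := fun x : {x | x ∈ X ∧ P (f x) (g y)} =>
        (⟨f x.1, hf _ x.2.1, x.2.2⟩ : {x | x ∈ E ∧ P x (g y)})) ?_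
    intro a b hab
    exact Subtype.ext (hfi a.2.1 b.2.1 (congrArg Subtype.val hab))
  · intro x hx
    refine le_trans ?_ (h3 (f x) (hf x hx))
    refine Cardinal.mk_le_of_injective
      (f := fun y : {y | y ∈ X ∧ Q (f x) (g y)} =>
        (⟨g y.1, hg _ y.2.1, y.2.2⟩ : {y | y ∈ E ∧ Q (f x) y})) ?_
    intro a b hab
    exact Subtype.ext (hgi a.2.1 b.2.1 (congrArg Subtype.val hab))

/-- Injections of the ordinals below `l⁺` into `l`. -/
theorem exists_inj (l : Cardinal.{u}) (hl : ℵ₀ ≤ l) {ξ : Ordinal.{u}} (hξ : ξ < (Order.succ l).ord) :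
    ∃ j : Ordinal.{u} → Ordinal.{u}, InjOn j (Iic ξ) ∧ ∀ ζ ≤ ξ, j ζ < l.ord := by
  classical
  have h1 : #(Iic ξ) ≤ #(Iio l.ord) := by
    rw [Cardinal.mk_Iio_ordinal, Cardinal.card_ord]
    have h2 : #(Iic ξ) ≤ #(Iio (ξ + 1)) := Cardinal.mk_le_mk_of_subset fun x hx =>
      (Order.lt_add_one_iff.2 hx : x < ξ + 1)
    refine h2.trans ?_
    rw [Cardinal.mk_Iio_ordinal, Cardinal.lift_le, Cardinal.card_le_iff]
    exact (Cardinal.isSuccLimit_ord (hl.trans (Order.le_succ l))).add_one_lt hξ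
  obtain ⟨e⟩ := Cardinal.le_def _ _ |>.1 h1
  refine ⟨fun ζ => if h : ζ ≤ ξ then (e ⟨ζ, h⟩).1 else 0, ?_, ?_⟩
  · intro a ha b hb hab
    have ha' : a ≤ ξ := ha
    have hb' : b ≤ ξ := hb
    simp only [dif_pos ha', dif_pos hb'] at hab
    exact congrArg Subtype.val (e.injective (Subtype.ext hab))
  · intro ζ hζ
    simp only [dif_pos hζ]
    exact (e ⟨ζ, hζ⟩).2

theorem exists_idx {ι : Type (u + 1)} (E : Set ι) (l : Cardinal.{u})
    (hE : #E ≤ Cardinal.lift.{u + 1} l) :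
    ∃ i : ι → Ordinal.{u}, InjOn i E ∧ ∀ s ∈ E, i s < l.ord := by
  classical
  have h1 : #E ≤ #(Iio l.ord) := by
    rwa [Cardinal.mk_Iio_ordinal, Cardinal.card_ord]
  obtain ⟨e⟩ := Cardinal.le_def _ _ |>.1 h1
  refine ⟨fun s => if h : s ∈ E then (e ⟨s, h⟩).1 else 0, ?_, ?_⟩
  · intro a ha b hb hab
    simp only [dif_pos ha, dif_pos hb] at hab
    exact congrArg Subtype.val (e.injective (Subtype.ext hab))
  · intro s hs
    simp only [dif_pos hs]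
    exact (e ⟨s, hs⟩).2

theorem mk_le_of_ord {ι : Type (u + 1)} {S : Set ι} {c : Cardinal.{u}} (f : ι → Ordinal.{u})
    (hf : InjOn f S) (h : ∀ s ∈ S, f s < c.ord) : #S ≤ Cardinal.lift.{u + 1} c := by
  have h1 : #S ≤ #(Iio c.ord) := Cardinal.mk_le_of_injective
    (f := fun s : S => (⟨f s.1, h _ s.2⟩ : Iio c.ord))
    fun a b hab => Subtype.ext (hf a.2 b.2 (congrArg Subtype.val hab))
  rwa [Cardinal.mk_Iio_ordinal, Cardinal.card_ord] at h1

theorem exists_normal {ι : Type (u + 1)} (E : Set ι) (l : Cardinal.{u}) (hl : ℵ₀ ≤ l)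
    (hE : #E ≤ Cardinal.lift.{u + 1} (Order.succ l)) (D : Set Ordinal.{u})
    (ν : Ordinal.{u} → Cardinal.{u}) (hν : ∀ δ ∈ D, ∀ α, δ ≤ α → ν δ ≤ ν α)
    (hD : ∀ x < l.ord, ∃ δ ∈ D, x < (ν δ).ord) :
    ∃ m : ι → ι → Ordinal.{u}, (∀ s ∈ E, ∀ t ∈ E, m s t ∈ D) ∧
      ∀ α, Sparse (Cardinal.lift.{u + 1} (ν α)) E (fun s t => m s t ≤ α) := by
  classical
  obtain ⟨i, hi, hil⟩ := exists_idx E (Order.succ l) hE
  have hj : ∀ ξ : Ordinal.{u}, ∃ j : Ordinal.{u} → Ordinal.{u}, ξ < (Order.succ l).ord →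
      InjOn j (Iic ξ) ∧ ∀ ζ ≤ ξ, j ζ < l.ord := by
    intro ξ
    by_cases hξ : ξ < (Order.succ l).ord
    · obtain ⟨j, h1, h2⟩ := exists_inj l hl hξ
      exact ⟨j, fun _ => ⟨h1, h2⟩⟩
    · exact ⟨id, fun h => absurd h hξ⟩
  choose j hj using hj
  set r : ι → ι → Ordinal.{u} := fun s t => if i s ≤ i t then j (i t) (i s) else j (i s) (i t)
    with hr
  have hrl : ∀ s ∈ E, ∀ t ∈ E, r s t < l.ord := by
    intro s hs t ht
    simp only [hr]
    split_ifs with h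
    · exact (hj _ (hil t ht)).2 _ h
    · exact (hj _ (hil s hs)).2 _ (not_le.1 h).le
  set m : ι → ι → Ordinal.{u} := fun s t => sInf {δ | δ ∈ D ∧ r s t < (ν δ).ord} with hm
  have hmem : ∀ s ∈ E, ∀ t ∈ E, m s t ∈ {δ | δ ∈ D ∧ r s t < (ν δ).ord} := fun s hs t ht =>
    csInf_mem (hD _ (hrl s hs t ht))
  refine ⟨m, fun s hs t ht => (hmem s hs t ht).1, fun α => ?_⟩
  refine ⟨fun s t => i s ≤ i t ∧ j (i t) (i s) < (ν α).ord,
    fun s t => i t ≤ i s ∧ j (i s) (i t) < (ν α).ord, ?_, ?_, ?_⟩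
  · intro s hs t ht hst
    have h1 := hmem s hs t ht
    have h2 : r s t < (ν α).ord := h1.2.trans_le (Cardinal.ord_le_ord.2 (hν _ h1.1 _ hst))
    by_cases h : i s ≤ i t
    · left
      refine ⟨h, ?_⟩
      simp only [hr, if_pos h] at h2
      exact h2
    · right
      refine ⟨(not_le.1 h).le, ?_⟩
      simp only [hr, if_neg h] at h2
      exact h2
  · intro t ht
    refine mk_le_of_ord (fun s => j (i t) (i s)) ?_ fun s hs => hs.2.2
    intro a ha b hb hab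
    exact hi ha.1 hb.1 ((hj _ (hil t ht)).1 ha.2.1 hb.2.1 hab)
  · intro s hs
    refine mk_le_of_ord (fun t => j (i s) (i t)) ?_ fun t ht => ht.2.2
    intro a ha b hb hab
    exact hi ha.1 hb.1 ((hj _ (hil s hs)).1 ha.2.1 hb.2.1 hab)

end Pool.Agent.W2helper55.HL
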