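import Mathlib

/-!
# Sparse relations

A relation on a set `X` is `C`-sparse if it is the union of a relation all of whose columns have at
most `C` elements and of a relation all of whose rows have at most `C` elements.
-/

universe v

open Cardinal Set Order

namespace Pool.Agent.W2helper55.HL

/-- `R` is covered on `X × X` by a relation `P` all of whose columns have at most `C` elements and a
relation `Q` all of whose rows have at most `C` elements. -/
def Sparse {ι : Type v} (C : Cardinal.{v}) (X : Set ι) (R : ι → ι → Prop) : Prop :=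
  ∃ P Q : ι → ι → Prop, (∀ x ∈ X, ∀ y ∈ X, R x y → P x y ∨ Q x y) ∧
    (∀ y ∈ X, #{x | x ∈ X ∧ P x y} ≤ C) ∧ ∀ x ∈ X, #{y | y ∈ X ∧ Q x y} ≤ C

variable {ι : Type v} {C : Cardinal.{v}} {X : Set ι}

theorem Sparse.mono {R R' : ι → ι → Prop} (h : Sparse C X R')
    (hR : ∀ x ∈ X, ∀ y ∈ X, R x y → R' x y) : Sparse C X R := by
  obtain ⟨P, Q, h1, h2, h3⟩ := h
  exact ⟨P, Q, fun x hx y hy hr => h1 x hx y hy (hR x hx y hy hr), h2, h3⟩

theorem sparse_of_false {R : ι → ι → Prop} (hR : ∀ x ∈ X, ∀ y ∈ X, ¬ R x y) : Sparse C X R := by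
  refine ⟨fun _ _ => False, fun _ _ => False, fun x hx y hy hr => absurd hr (hR x hx y hy), ?_, ?_⟩
  · intro y _
    simp
  · intro y _
    simp

theorem mk_biUnion_le_of {κ' : Type v} (hC : ℵ₀ ≤ C) (D : Set κ') (hD : #D ≤ C) (S : κ' → Set ι)
    (hS : ∀ d ∈ D, #(S d) ≤ C) : #(⋃ d ∈ D, S d : Set ι) ≤ C := by
  refine (mk_biUnion_le S D).trans ?_
  refine (mul_le_mul' hD (ciSup_le' fun d : D => hS d.1 d.2)).trans ?_
  exact (mul_eq_self hC).le

theorem mk_union_le_of (hC : ℵ₀ ≤ C) {S T : Set ι} (hS : #S ≤ C) (hT : #T ≤ C) :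
    #(S ∪ T : Set ι) ≤ C :=
  (mk_union_le S T).trans ((add_le_add hS hT).trans (add_eq_self hC).le)

theorem sparse_biUnion {κ' : Type v} (hC : ℵ₀ ≤ C) (D : Set κ') (hD : #D ≤ C)
    (R : κ' → ι → ι → Prop) (hR : ∀ d ∈ D, Sparse C X (R d)) :
    Sparse C X (fun x y => ∃ d ∈ D, R d x y) := by
  classical
  choose! P Q h1 h2 h3 using hR
  refine ⟨fun x y => ∃ d ∈ D, P d x y, fun x y => ∃ d ∈ D, Q d x y, ?_, ?_, ?_⟩
  · rintro x hx y hy ⟨d, hd, h⟩
    rcases h1 d hd x hx y hy h with h | h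
    · exact Or.inl ⟨d, hd, h⟩
    · exact Or.inr ⟨d, hd, h⟩
  · intro y hy
    refine (mk_le_mk_of_subset ?_).trans
      (mk_biUnion_le_of hC D hD (fun d => {x | x ∈ X ∧ P d x y}) fun d hd => h2 d hd y hy)
    rintro x ⟨hx, d, hd, h⟩
    simp only [mem_iUnion]
    exact ⟨d, hd, hx, h⟩
  · intro x hx
    refine (mk_le_mk_of_subset ?_).trans
      (mk_biUnion_le_of hC D hD (fun d => {y | y ∈ X ∧ Q d x y}) fun d hd => h3 d hd x hx)
    rintro y ⟨hy, d, hd, h⟩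
    simp only [mem_iUnion]
    exact ⟨d, hd, hy, h⟩

theorem Sparse.or (hC : ℵ₀ ≤ C) {R R' : ι → ι → Prop} (h : Sparse C X R) (h' : Sparse C X R') :
    Sparse C X (fun x y => R x y ∨ R' x y) := by
  obtain ⟨P, Q, h1, h2, h3⟩ := h
  obtain ⟨P', Q', h1', h2', h3'⟩ := h'
  refine ⟨fun x y => P x y ∨ P' x y, fun x y => Q x y ∨ Q' x y, ?_, ?_, ?_⟩
  · intro x hx y hy hr
    rcases hr with hr | hr
    · rcases h1 x hx y hy hr with h | h
      · exact Or.inl (Or.inl h)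
      · exact Or.inr (Or.inl h)
    · rcases h1' x hx y hy hr with h | h
      · exact Or.inl (Or.inr h)
      · exact Or.inr (Or.inr h)
  · intro y hy
    refine (mk_le_mk_of_subset ?_).trans (mk_union_le_of hC (h2 y hy) (h2' y hy))
    rintro x ⟨hx, h | h⟩
    · exact Or.inl ⟨hx, h⟩
    · exact Or.inr ⟨hx, h⟩
  · intro x hx
    refine (mk_le_mk_of_subset ?_).trans (mk_union_le_of hC (h3 x hx) (h3' x hx))
    rintro y ⟨hy, h | h⟩
    · exact Or.inl ⟨hy, h⟩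
    · exact Or.inr ⟨hy, h⟩

/-- If all the sets `{y ∈ X | k < w y}` have more than `C⁺` elements and `R` is `C`-sparse on `X`,
then for all but `C` many `x ∈ X` and all `k` there is `y ∈ X` with `k < w y` outside of `R`. -/
theorem Sparse.exists_good (hC : ℵ₀ ≤ C) {R : ι → ι → Prop} (h : Sparse C X R) (w : ι → ℕ)
    (hw : ∀ k, Order.succ C < #{y | y ∈ X ∧ k < w y}) :
    ∃ B : Set ι, #B ≤ C ∧ ∀ x ∈ X, x ∉ B → ∀ k, ∃ y ∈ X, k < w y ∧ ¬ R x y := by
  classical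
  obtain ⟨P, Q, h1, h2, h3⟩ := h
  have hk : ∀ k, #{x | x ∈ X ∧ ∀ y ∈ X, k < w y → R x y} ≤ C := by
    intro k
    by_contra hc
    push Not at hc
    obtain ⟨X₀, hX₀, hX₀c⟩ := le_mk_iff_exists_subset.1 (Order.succ_le_of_lt hc)
    have hCs : ℵ₀ ≤ Order.succ C := hC.trans (Order.le_succ C)
    have hU : #(⋃ x ∈ X₀, {y | y ∈ X ∧ Q x y} : Set ι) ≤ Order.succ C :=
      mk_biUnion_le_of hCs X₀ hX₀c.le (fun x => {y | y ∈ X ∧ Q x y}) fun x hx =>
        (h3 x (hX₀ hx).1).trans (Order.le_succ C)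
    have hne : ¬ {y | y ∈ X ∧ k < w y} ⊆ (⋃ x ∈ X₀, {y | y ∈ X ∧ Q x y} : Set ι) := fun hs =>
      absurd ((mk_le_mk_of_subset hs).trans hU) (not_le.2 (hw k))
    obtain ⟨y, ⟨hyX, hky⟩, hyU⟩ := Set.not_subset.1 hne
    have hP : X₀ ⊆ {x | x ∈ X ∧ P x y} := by
      intro x hx
      refine ⟨(hX₀ hx).1, ?_⟩
      rcases h1 x (hX₀ hx).1 y hyX ((hX₀ hx).2 y hyX hky) with h | h
      · exact h
      · exfalso
        apply hyU
        simp only [mem_iUnion]
        exact ⟨x, hx, hyX, h⟩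
    have := (mk_le_mk_of_subset hP).trans (h2 y hyX)
    rw [hX₀c] at this
    exact absurd this (not_le.2 (Order.lt_succ C))
  refine ⟨⋃ k ∈ (univ : Set (ULift.{v} ℕ)), {x | x ∈ X ∧ ∀ y ∈ X, k.down < w y → R x y}, ?_, ?_⟩
  · refine mk_biUnion_le_of hC univ ?_ (fun k : ULift.{v} ℕ => {x | x ∈ X ∧ ∀ y ∈ X, k.down < w y → R x y})
      fun k _ => hk k.down
    rw [mk_univ, mk_uLift, mk_nat, lift_aleph0]
    exact hC
  · intro x hx hxB k
    by_contra hc
    push Not at hc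
    apply hxB
    simp only [mem_iUnion]
    exact ⟨⟨k⟩, mem_univ _, hx, fun y hy hky => hc y hy hky⟩

end Pool.Agent.W2helper55.HL
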