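import Pool.Agent.H348R6.HLSing
import Pool.Agent.W2helper55.HL.Sparse

/-!
# The tree of all sequences with prescribed bounds
-/

universe u

open Cardinal Ordinal Set

namespace Pool.Agent.W2helper55.HL

open Pool.Agent.H348R6.HLT

/-- The tree of all sequences `t` of length less than `κ` with `t β < M β` for all `β`. -/
def fat (κ : Cardinal.{u}) (M : Ordinal.{u} → Ordinal.{u}) : Set Node.{u} :=
  {t | t.len < κ.ord ∧ ∀ β < t.len, t.fn β < M β}

variable {κ : Cardinal.{u}} {M : Ordinal.{u} → Ordinal.{u}}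

theorem fat_down {t s : Node.{u}} (ht : t ∈ fat κ M) (hs : s ≤ t) : s ∈ fat κ M :=
  ⟨hs.1.trans_lt ht.1, fun β hβ => by rw [hs.2 β hβ]; exact ht.2 β (hβ.trans_le hs.1)⟩

theorem cut_mem_fat {t : Node.{u}} (ht : t ∈ fat κ M) (β : Ordinal.{u}) : cut t β ∈ fat κ M :=
  fat_down ht (cut_le _ _)

theorem snoc_mem_fat (hκ : ℵ₀ ≤ κ) {t : Node.{u}} (ht : t ∈ fat κ M) {v : Ordinal.{u}}
    (hv : v < M t.len) : snoc t v ∈ fat κ M := by
  refine ⟨add_one_lt_ord hκ ht.1, fun β hβ => ?_⟩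
  rcases eq_or_ne β t.len with rfl | h
  · rw [snoc_fn]; exact hv
  · rw [snoc_fn_ne _ _ h]
    exact ht.2 β (lt_of_le_of_ne (Order.lt_add_one_iff.1 hβ) h)

theorem fat_isTree (hM : ∀ β < κ.ord, M β < κ.ord) : IsTree κ (fat κ M) where
  len_lt _ ht := ht.1
  val_lt _ ht β hβ := (ht.2 β hβ).trans (hM β (hβ.trans ht.1))
  down _ ht _ hs := fat_down ht hs

/-- Cardinality of a level whose values are bounded by `λ`. -/
theorem mk_level_le {β : Ordinal.{u}} {c : Cardinal.{u}} (hc : ℵ₀ ≤ c) (hβ : β.card ≤ c)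
    (hM : ∀ δ < β, M δ ≤ c.ord) : #(level (fat κ M) β) ≤ Cardinal.lift.{u + 1} (2 ^ c) := by
  have h1 : #(level (fat κ M) β) ≤ #(Iio β → Iio c.ord) := by
    refine Cardinal.mk_le_of_injective
      (f := fun t : level (fat κ M) β => fun ξ : Iio β => (⟨t.1.fn ξ.1, ?_⟩ : Iio c.ord)) ?_
    · have h2 : ξ.1 < t.1.len := by rw [t.2.2]; exact ξ.2
      exact (t.2.1.2 ξ.1 h2).trans_le (hM ξ.1 ξ.2)
    · intro s t hst
      apply Subtype.ext
      refine Node.ext (s.2.2.trans t.2.2.symm) ?_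
      funext δ
      by_cases hδ : δ < β
      · exact congrArg Subtype.val (congrFun hst ⟨δ, hδ⟩)
      · rw [s.1.supp δ (s.2.2.le.trans (not_lt.1 hδ)), t.1.supp δ (t.2.2.le.trans (not_lt.1 hδ))]
  refine h1.trans ?_
  rw [← Cardinal.power_def, Cardinal.mk_Iio_ordinal, Cardinal.mk_Iio_ordinal, Cardinal.card_ord,
    ← Cardinal.lift_power, Cardinal.lift_le]
  calc c ^ β.card ≤ c ^ c := Cardinal.power_le_power_left (Cardinal.aleph0_pos.trans_le hc).ne' hβ
    _ = 2 ^ c := Cardinal.power_self_eq hc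

theorem fat_regular (hκ : κ.IsInaccessible) (hM : ∀ β < κ.ord, M β < κ.ord)
    (h2 : ∀ β, 1 < M β)
    (hb : ∀ β < κ.ord, ∃ c < κ, ℵ₀ ≤ c ∧ β.card ≤ c ∧ ∀ δ < β, M δ ≤ c.ord) :
    IsRegularTree κ (fat κ M) := by
  have hκ0 : ℵ₀ ≤ κ := hκ.aleph0_lt.le
  have hT : IsTree κ (fat κ M) := fat_isTree hM
  have h0 : ∀ β, 0 < M β := fun β => zero_lt_one.trans (h2 β)
  refine { toIsTree := hT, level_nonempty := ?_, level_small := ?_, branch := ?_, split := ?_ }
  · intro α hα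
    exact ⟨⟨α, fun _ => 0, fun _ _ => rfl⟩, ⟨hα, fun β _ => h0 β⟩, rfl⟩
  · intro α hα
    obtain ⟨c, hcκ, hc0, hc1, hc2⟩ := hb α hα
    refine (mk_level_le hc0 hc1 hc2).trans_lt ?_
    rw [Cardinal.lift_lt]
    exact hκ.isStrongPrelimit hcκ
  · refine branch_of hT ?_ ?_
    · intro c hc hch γ hγ hcγ hcof
      refine ⟨hγ, fun β hβ => ?_⟩
      obtain ⟨x, hx, hxβ⟩ := hcof β hβ
      rw [unionNode_fn hch hx (hcγ x hx) hxβ]
      exact (hc hx).2 β hxβ
    · intro x hx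
      exact ⟨snoc x 0, snoc_mem_fat hκ0 hx (h0 _), le_snoc _ _, rfl⟩
  · intro t ht
    refine ⟨snoc t 0, snoc_mem_fat hκ0 ht (h0 _), snoc t 1, snoc_mem_fat hκ0 ht (h2 _),
      le_snoc _ _, le_snoc _ _, ?_, ?_⟩
    · intro h
      have := h.2 t.len (Order.lt_add_one_iff.2 le_rfl)
      rw [snoc_fn, snoc_fn] at this
      exact zero_ne_one this
    · intro h
      have := h.2 t.len (Order.lt_add_one_iff.2 le_rfl)
      rw [snoc_fn, snoc_fn] at this
      exact one_ne_zero this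

end Pool.Agent.W2helper55.HL
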