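import Pool.Agent.R587.VL
import Pool.Agent.W868.Gch

/-!
# The generalized continuum hypothesis under `V = L`, for cardinals
-/

set_option autoImplicit false

namespace Pool.Agent.W2helper55.HL

open Pool.Agent.W868 hiding Models
open Pool.Agent.R587
open Cardinal

/-- Under the axiom of constructibility, `2 ^ l = l⁺` for every infinite cardinal `l`. -/
theorem gch_of_VL (hV : VL) (l : Cardinal.{0}) (hl : ℵ₀ ≤ l) : 2 ^ l = Order.succ l := by
  have hL : IsLA ∅ (Set.univ : Set ZFSet.{0}) := hV.vlv.isLA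
  have hM := hL.zf
  refine le_antisymm ?_ (Order.succ_le_of_lt (Cardinal.cantor l))
  have hμ : kap l ∈ (Set.univ : Set ZFSet.{0}) := Set.mem_univ _
  have hω := omega_sub_kap hl
  have hl' : ℵ₀ ≤ Order.succ l := hl.trans (Order.le_succ l)
  have hω' := omega_sub_kap hl'
  have hT : ({∅} : ZFSet.{0}) ∈ (Set.univ : Set ZFSet.{0}) := Set.mem_univ _
  have hT1 : ∀ x ∈ ({∅} : ZFSet.{0}), ∀ y ∈ x, y ∈ ({∅} : ZFSet.{0}) := by
    intro x hx y hy
    rw [ZFSet.mem_singleton] at hx
    subst hx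
    exact absurd hy (ZFSet.notMem_empty _)
  have hT2 : Inj (Set.univ : Set ZFSet.{0}) {∅} ZFSet.omega :=
    Inj.of_subset hM hT hM.infinity (by
      intro x hx
      rw [ZFSet.mem_singleton] at hx
      subst hx
      exact ZFSet.omega_zero)
  have h1 : ZFSet.powerset (kap l) ⊆ Lv ∅ (kap (Order.succ l)) := by
    intro y hy
    rw [ZFSet.mem_powerset] at hy
    obtain ⟨ξ, -, h3, h4, h5⟩ := sub_level hL hμ ord_kap hω hT hT1
      (ZFSet.mem_singleton.2 rfl) hT2 (Set.mem_univ y) hy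
    obtain ⟨f, -, h6⟩ := h4
    have h7 : ξ.card ≤ l := by
      have := card_le_of_isInj h6
      rwa [card_kap] at this
    have h8 : ξ ∈ kap (Order.succ l) := by
      rw [← h3.toZFSet_rank_eq, Ordinal.card_toZFSet] at h7
      rw [← h3.toZFSet_rank_eq, kap, Ordinal.toZFSet_mem_toZFSet_iff, Cardinal.lt_ord]
      exact lt_of_le_of_lt h7 (Order.lt_succ l)
    exact Lv_mono (ord_kap.subset_of_mem h8) h5
  have h2 : Inj (Set.univ : Set ZFSet.{0}) (Lv ∅ (kap (Order.succ l))) (kap (Order.succ l)) :=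
    Lv_small hL (Set.mem_univ _) ord_kap hω' (Set.mem_univ _) ord_kap
      (Inj.of_subset hM (Set.mem_univ _) (Set.mem_univ _) fun _ h => h)
  obtain ⟨f, -, h3⟩ := h2
  calc (2 : Cardinal.{0}) ^ l = (ZFSet.powerset (kap l)).card := by
        rw [ZFSet.card_powerset, card_kap]
    _ ≤ (Lv ∅ (kap (Order.succ l))).card := ZFSet.card_mono h1
    _ ≤ (kap (Order.succ l)).card := card_le_of_isInj h3
    _ = Order.succ l := card_kap

end Pool.Agent.W2helper55.HL
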